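import Mathlib

/-!
Pencils of skew-symmetric forms in Jordan–Kronecker normal form, their automorphisms, and the
coordinates of vectors.
-/

set_option autoImplicit false

open Polynomial

namespace Pool.Agent.Lib.MP_8c499d_al

/-- The `k × (k+1)` matrix `(I | 0)`. -/
def matD (k : ℕ) : Matrix (Fin k) (Fin (k + 1)) ℂ :=
  Matrix.of fun r s => if (s : ℕ) = r then 1 else 0

/-- The `k × (k+1)` matrix `(0 | I)`. -/
def matD' (k : ℕ) : Matrix (Fin k) (Fin (k + 1)) ℂ :=
  Matrix.of fun r s => if (s : ℕ) = r + 1 then 1 else 0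

/-- The `n × n` Jordan block with eigenvalue `m`. -/
def matJ (n : ℕ) (m : ℂ) : Matrix (Fin n) (Fin n) ℂ :=
  Matrix.of fun r s => if (s : ℕ) = r then m else if (s : ℕ) = r + 1 then 1 else 0

/-- The indices of the basis vectors: the Kronecker block `i` of size `k i` has `k i + (k i + 1)`
basis vectors, the Jordan block `j` of size `n j` has `n j + n j` basis vectors. -/
abbrev Idx {ι κ : Type} (k : ι → ℕ) (n : κ → ℕ) : Type :=
  (Σ i : ι, Fin (k i) ⊕ Fin (k i + 1)) ⊕ (Σ j : κ, Fin (n j) ⊕ Fin (n j))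

/-- The matrix of the first form: blocks `(0, D; -Dᵀ, 0)` and `(0, I; -I, 0)`. -/
def matA {ι κ : Type} [DecidableEq ι] [DecidableEq κ] (k : ι → ℕ) (n : κ → ℕ) :
    Matrix (Idx k n) (Idx k n) ℂ :=
  Matrix.fromBlocks
    (Matrix.blockDiagonal' fun i => Matrix.fromBlocks 0 (matD (k i)) (-(matD (k i)).transpose) 0)
    0 0 (Matrix.blockDiagonal' fun _ => Matrix.fromBlocks 0 1 (-1) 0)

/-- The matrix of the second form: blocks `(0, D'; -D'ᵀ, 0)` and `(0, J; -Jᵀ, 0)`. -/
def matB {ι κ : Type} [DecidableEq ι] [DecidableEq κ] (k : ι → ℕ) (n : κ → ℕ) (μ : κ → ℂ) :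
    Matrix (Idx k n) (Idx k n) ℂ :=
  Matrix.fromBlocks
    (Matrix.blockDiagonal' fun i => Matrix.fromBlocks 0 (matD' (k i)) (-(matD' (k i)).transpose) 0)
    0 0 (Matrix.blockDiagonal' fun j =>
      Matrix.fromBlocks 0 (matJ (n j) (μ j)) (-(matJ (n j) (μ j)).transpose) 0)

section

variable {V : Type*} [AddCommGroup V] [Module ℂ V]

/-- The forms `A`, `B` have Jordan–Kronecker normal form in the basis `b`, with Kronecker blocks
of the sizes `k i` and Jordan blocks of the sizes `n j` with the eigenvalues `μ j`. -/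
def IsJK {ι κ : Type} [DecidableEq ι] [DecidableEq κ] {k : ι → ℕ} {n : κ → ℕ} (μ : κ → ℂ)
    (b : Module.Basis (Idx k n) ℂ V) (A B : V →ₗ[ℂ] V →ₗ[ℂ] ℂ) : Prop :=
  (∀ s t, A (b s) (b t) = matA k n s t) ∧ ∀ s t, B (b s) (b t) = matB k n μ s t

/-- `φ` is an automorphism of the pencil: it preserves all forms `A + z B` and `B`. -/
def IsAut (A B : V →ₗ[ℂ] V →ₗ[ℂ] ℂ) (φ : V ≃ₗ[ℂ] V) : Prop :=
  (∀ (z : ℂ) (v w : V), A (φ v) (φ w) + z * B (φ v) (φ w) = A v w + z * B v w) ∧
    ∀ v w : V, B (φ v) (φ w) = B v w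

/-- `W` is invariant under the automorphism group of the pencil. -/
def Invariant (A B : V →ₗ[ℂ] V →ₗ[ℂ] ℂ) (W : Submodule ℂ V) : Prop :=
  ∀ φ : V ≃ₗ[ℂ] V, IsAut A B φ → W.map φ.toLinearMap = W

variable {ι κ : Type} {k : ι → ℕ} {n : κ → ℕ} (b : Module.Basis (Idx k n) ℂ V)

/-- The polynomial of degree `< k i` whose coefficients are the first `k i` coordinates of `v` in
the Kronecker block `i`. -/
noncomputable def fP (i : ι) (v : V) : ℂ[X] :=
  ∑ r : Fin (k i), C (b.repr v (Sum.inl ⟨i, Sum.inl r⟩)) * X ^ (r : ℕ)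

/-- The last `k i + 1` coordinates of `v` in the Kronecker block `i`, paired with the coefficients
of a polynomial. -/
noncomputable def yP (i : ι) (v : V) (g : ℂ[X]) : ℂ :=
  ∑ r : Fin (k i + 1), b.repr v (Sum.inl ⟨i, Sum.inr r⟩) * g.coeff (r : ℕ)

/-- The polynomial whose coefficients are the first `n j` coordinates of `v` in the Jordan
block `j`. -/
noncomputable def pP (j : κ) (v : V) : ℂ[X] :=
  ∑ r : Fin (n j), C (b.repr v (Sum.inr ⟨j, Sum.inl r⟩)) * X ^ (r : ℕ)

/-- The polynomial whose coefficients are the last `n j` coordinates of `v` in the Jordan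
block `j`, in reverse order. -/
noncomputable def qP (j : κ) (v : V) : ℂ[X] :=
  ∑ r : Fin (n j), C (b.repr v (Sum.inr ⟨j, Sum.inr r⟩)) * X ^ (n j - 1 - (r : ℕ))

/-- The subspace `W` consists of the vectors `v` such that in the Kronecker blocks of size `d` the
polynomial of the first coordinates lies in `F d` and the last coordinates are orthogonal to
`Z d`, and in the Jordan blocks of size `d` with eigenvalue `m` both polynomials are divisible
by `X ^ a m d`. -/
def Describes (μ : κ → ℂ) (F Z : ℕ → Submodule ℂ ℂ[X]) (a : ℂ → ℕ → ℕ) (W : Submodule ℂ V) :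
    Prop :=
  ∀ v : V, v ∈ W ↔ (∀ i, fP b i v ∈ F (k i)) ∧ (∀ i, ∀ g ∈ Z (k i), yP b i v g = 0) ∧
    ∀ j, X ^ a (μ j) (n j) ∣ pP b j v ∧ X ^ a (μ j) (n j) ∣ qP b j v

/-- The polynomials of degree `< d` spanned by the multiples `g * fP b i v` with `k i ≤ d` and
`deg g ≤ d - k i`. -/
noncomputable def multiples (v : V) (d : ℕ) : Submodule ℂ ℂ[X] :=
  Submodule.span ℂ {x | ∃ i g, k i ≤ d ∧ g.natDegree ≤ d - k i ∧ x = g * fP b i v}

/-- The polynomials `g` of degree `≤ d` which annihilate `v`: only `g = 0` if some `fP b i v` is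
not zero, and otherwise all `g` with `yP b i v (c * g) = 0` for all blocks with `d ≤ k i` and all
`c` of degree `≤ k i - d`, such that `g (X + μ j)` times the polynomials of `v` in the Jordan
block `j` is `0` modulo `X ^ n j`. -/
def annihilators (μ : κ → ℂ) (v : V) (d : ℕ) : Set ℂ[X] :=
  {g | g.degree ≤ d ∧ ((∃ i, fP b i v ≠ 0) → g = 0) ∧
    (∀ i, d ≤ k i → ∀ c : ℂ[X], c.natDegree ≤ k i - d → yP b i v (c * g) = 0) ∧
    ∀ j, X ^ n j ∣ g.comp (X + C (μ j)) * pP b j v ∧ X ^ n j ∣ g.comp (X + C (μ j)) * qP b j v}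

/-- The height of `v` for the eigenvalue `m` and the size `d`: the largest `e ≤ d` such that
`(X - m) ^ e` divides all `fP b i v` and `X ^ e` divides `X ^ (d - n j)` (`1` if `d ≤ n j`) times
the polynomials of `v` in every Jordan block `j` with eigenvalue `m`. -/
noncomputable def height (μ : κ → ℂ) (v : V) (m : ℂ) (d : ℕ) : ℕ :=
  sSup {e | e ≤ d ∧ (∀ i, (X - C m) ^ e ∣ fP b i v) ∧
    ∀ j, μ j = m → X ^ e ∣ X ^ (d - n j) * pP b j v ∧ X ^ e ∣ X ^ (d - n j) * qP b j v}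

end

/-- The conditions on the families `F d`, `Z d` (subspaces of polynomials, relevant for the sizes
`d` of the Kronecker blocks) and `a m d` (numbers, relevant for the eigenvalues `m` and the sizes
`d` of the Jordan blocks). -/
structure Admissible {ι κ : Type} (k : ι → ℕ) (n : κ → ℕ) (μ : κ → ℂ)
    (F Z : ℕ → Submodule ℂ ℂ[X]) (a : ℂ → ℕ → ℕ) : Prop where
  /-- the elements of `F d` have degree `< d` -/
  F_deg : ∀ i, ∀ f ∈ F (k i), f.degree < k i
  /-- the elements of `Z d` have degree `≤ d` -/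
  Z_deg : ∀ i, ∀ g ∈ Z (k i), g.degree ≤ k i
  /-- `F d` times the polynomials of degree `≤ d' - d` is contained in `F d'` -/
  F_mul : ∀ i i', k i ≤ k i' → ∀ g : ℂ[X], g.natDegree ≤ k i' - k i → ∀ f ∈ F (k i),
    g * f ∈ F (k i')
  /-- `Z d` times the polynomials of degree `≤ d' - d` is contained in `Z d'` -/
  Z_mul : ∀ i i', k i ≤ k i' → ∀ g : ℂ[X], g.natDegree ≤ k i' - k i → ∀ f ∈ Z (k i),
    g * f ∈ Z (k i')
  a_le : ∀ j, a (μ j) (n j) ≤ n j
  a_mono : ∀ j j', μ j = μ j' → n j ≤ n j' → a (μ j) (n j) ≤ a (μ j') (n j')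
  a_step : ∀ j j', μ j = μ j' → n j ≤ n j' →
    a (μ j') (n j') ≤ a (μ j) (n j) + (n j' - n j)
  /-- if some `F d` is not zero, then all `Z d` are zero -/
  F_Z : ∀ i i', F (k i) ≠ ⊥ → Z (k i') = ⊥
  F_dvd : ∀ i j, ∀ f ∈ F (k i), (X - C (μ j)) ^ a (μ j) (n j) ∣ f
  Z_dvd : ∀ i j, ∀ g ∈ Z (k i), (X - C (μ j)) ^ (n j - a (μ j) (n j)) ∣ g

end Pool.Agent.Lib.MP_8c499d_al
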