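import Mathlib

section

/-!
Coordinate vectors as polynomials and as functionals on polynomials.
-/

set_option autoImplicit false

open Polynomial

namespace Pool.Agent.Lib.MP_8c499d_al

/-- Coordinate vectors of length `n`. -/
abbrev E (n : ℕ) := Fin n → ℂ

/-- The polynomial with given coefficients. -/
noncomputable def pol {n : ℕ} : E n →ₗ[ℂ] ℂ[X] :=
  ∑ r : Fin n, (Polynomial.monomial (r : ℕ)).comp (LinearMap.proj r)

/-- The first `n` coefficients of a polynomial. -/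
noncomputable def tr (n : ℕ) : ℂ[X] →ₗ[ℂ] E n := LinearMap.pi fun r => Polynomial.lcoeff ℂ (r : ℕ)

/-- A coordinate vector as a functional on polynomials. -/
noncomputable def pr {n : ℕ} : E n →ₗ[ℂ] ℂ[X] →ₗ[ℂ] ℂ :=
  LinearMap.mk₂ ℂ (fun y g => ∑ r : Fin n, y r * g.coeff r)
    (fun y y' g => by simp [add_mul, Finset.sum_add_distrib])
    (fun a y g => by simp [Finset.mul_sum, mul_assoc])
    (fun y g g' => by simp [mul_add, Finset.sum_add_distrib])
    (fun a y g => by simp [Finset.mul_sum, mul_left_comm])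

/-- The coordinate vector of a functional on polynomials. -/
noncomputable def res (n : ℕ) : (ℂ[X] →ₗ[ℂ] ℂ) →ₗ[ℂ] E n where
  toFun l := fun r => l (X ^ (r : ℕ))
  map_add' _ _ := rfl
  map_smul' _ _ := rfl

variable {n : ℕ}

theorem pol_apply (x : E n) : pol x = ∑ r : Fin n, Polynomial.monomial (r : ℕ) (x r) := by
  simp [pol]

theorem coeff_pol (x : E n) (s : ℕ) : (pol x).coeff s = if h : s < n then x ⟨s, h⟩ else 0 := by
  rw [pol_apply, Polynomial.finsetSum_coeff]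
  simp only [Polynomial.coeff_monomial]
  split
  next h =>
    rw [Finset.sum_eq_single ⟨s, h⟩]
    · simp
    · intro b _ hb
      rw [if_neg]
      intro h'
      exact hb (Fin.ext h')
    · simp
  next h =>
    refine Finset.sum_eq_zero fun r _ => ?_
    rw [if_neg]
    intro h'
    exact h (h' ▸ r.2)

theorem coeff_pol_fin (x : E n) (s : Fin n) : (pol x).coeff s = x s := by
  rw [coeff_pol, dif_pos s.2]

theorem coeff_pol_lt (x : E n) {s : ℕ} (h : s < n) : (pol x).coeff s = x ⟨s, h⟩ := by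
  rw [coeff_pol, dif_pos h]

theorem coeff_pol_ge (x : E n) {s : ℕ} (h : n ≤ s) : (pol x).coeff s = 0 := by
  rw [coeff_pol, dif_neg (by omega)]

@[simp] theorem tr_apply (g : ℂ[X]) (r : Fin n) : tr n g r = g.coeff r := rfl

theorem degree_pol_lt (x : E n) : (pol x).degree < n := by
  rw [Polynomial.degree_lt_iff_coeff_zero]
  intro m hm
  exact coeff_pol_ge x (by exact_mod_cast hm)

@[simp] theorem tr_pol (x : E n) : tr n (pol x) = x := by
  ext r
  rw [tr_apply, coeff_pol_fin]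

theorem pol_tr {g : ℂ[X]} (h : g.degree < n) : pol (tr n g) = g := by
  ext s
  rw [coeff_pol]
  split
  next hs => simp
  next hs =>
    rw [Polynomial.coeff_eq_zero_of_degree_lt (lt_of_lt_of_le h (by exact_mod_cast (by omega)))]

theorem pol_injective : Function.Injective (pol : E n → ℂ[X]) := fun x y h => by
  rw [← tr_pol x, h, tr_pol]

theorem pol_eq_zero {x : E n} (h : pol x = 0) : x = 0 := pol_injective (by rw [h, map_zero])

theorem pol_size_zero (h : n = 0) (x : E n) : pol x = 0 := by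
  subst h
  rw [Subsingleton.elim x 0, map_zero]

theorem pr_apply (y : E n) (g : ℂ[X]) : pr y g = ∑ r : Fin n, y r * g.coeff r := rfl

theorem pr_X_pow (y : E n) (r : Fin n) : pr y (X ^ (r : ℕ)) = y r := by
  rw [pr_apply, Finset.sum_eq_single r]
  · simp
  · intro b _ hb
    rw [Polynomial.coeff_X_pow, if_neg, mul_zero]
    intro h
    exact hb (Fin.ext h)
  · simp

theorem sum_of_degree_lt {g : ℂ[X]} (h : g.degree < n) :
    g = ∑ r : Fin n, g.coeff r • X ^ (r : ℕ) := by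
  conv_lhs => rw [← pol_tr h, pol_apply]
  refine Finset.sum_congr rfl fun r _ => ?_
  rw [tr_apply, Polynomial.smul_X_eq_monomial]

theorem pr_res (l : ℂ[X] →ₗ[ℂ] ℂ) {g : ℂ[X]} (h : g.degree < n) : pr (res n l) g = l g := by
  conv_rhs => rw [sum_of_degree_lt h, map_sum]
  rw [pr_apply]
  refine Finset.sum_congr rfl fun r _ => ?_
  rw [map_smul, smul_eq_mul, mul_comm]
  rfl

theorem res_pr (y : E n) : res n (pr y) = y := by
  ext r
  exact pr_X_pow y r

theorem res_congr {l l' : ℂ[X] →ₗ[ℂ] ℂ} (h : ∀ g : ℂ[X], g.degree < n → l g = l' g) :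
    res n l = res n l' := by
  ext r
  refine h _ ?_
  rw [Polynomial.degree_X_pow]
  exact_mod_cast r.2

theorem eq_of_pr {y y' : E n} (h : ∀ g : ℂ[X], g.degree < n → pr y g = pr y' g) : y = y' := by
  rw [← res_pr y, ← res_pr y']
  exact res_congr h

/-- Polynomials that have the same pairing with all vectors. -/
theorem eq_of_pr' {g g' : ℂ[X]} (h : g.degree < n) (h' : g'.degree < n)
    (hp : ∀ y : E n, pr y g = pr y g') : g = g' := by
  rw [← pol_tr h, ← pol_tr h']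
  congr 1
  ext r
  have := hp (Pi.single r 1)
  rw [pr_apply, pr_apply, Finset.sum_eq_single r, Finset.sum_eq_single r] at this
  · simpa using this
  · intro b _ hb
    rw [Pi.single_eq_of_ne hb, zero_mul]
  · simp
  · intro b _ hb
    rw [Pi.single_eq_of_ne hb, zero_mul]
  · simp

/-- Every functional on `E n` is given by a polynomial of degree `< n`. -/
theorem exists_pol_of_dual (l : E n →ₗ[ℂ] ℂ) : ∃ g : ℂ[X], g.degree < n ∧ ∀ y, l y = pr y g := by
  refine ⟨pol fun r => l (Pi.single r 1), degree_pol_lt _, fun y => ?_⟩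
  rw [pr_apply]
  conv_lhs => rw [← Finset.univ_sum_single y, map_sum]
  refine Finset.sum_congr rfl fun r _ => ?_
  rw [coeff_pol_fin, ← smul_eq_mul (y r), ← map_smul, ← Pi.single_smul, smul_eq_mul, mul_one]

theorem exists_pol_of_notMem {S : Submodule ℂ (E n)} {y : E n} (h : y ∉ S) :
    ∃ g : ℂ[X], g.degree < n ∧ (∀ z ∈ S, pr z g = 0) ∧ pr y g ≠ 0 := by
  obtain ⟨l, h1, h2⟩ := Submodule.exists_dual_map_eq_bot_of_notMem h inferInstance
  obtain ⟨g, hg, hl⟩ := exists_pol_of_dual l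
  refine ⟨g, hg, fun z hz => ?_, ?_⟩
  · rw [← hl]
    have : l z ∈ S.map l := Submodule.mem_map_of_mem hz
    rw [h2] at this
    exact (Submodule.mem_bot ℂ).1 this
  · rw [← hl]
    exact h1

/-- Truncation does not matter for the coefficient of `X ^ (n - 1)`. -/
theorem coeff_pol_tr_mul (g h : ℂ[X]) (hn : n ≠ 0) :
    (pol (tr n g) * h).coeff (n - 1) = (g * h).coeff (n - 1) := by
  rw [Polynomial.coeff_mul, Polynomial.coeff_mul]
  refine Finset.sum_congr rfl fun p hp => ?_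
  rw [Finset.HasAntidiagonal.mem_antidiagonal] at hp
  rw [coeff_pol_lt _ (by omega), tr_apply]

theorem coeff_shift (Q : ℂ[X]) {a b : ℕ} (ha : a ≠ 0) (hb : b ≠ 0) :
    (X ^ (b - a) * Q).coeff (b - 1) = (X ^ (a - b) * Q).coeff (a - 1) := by
  rw [Polynomial.coeff_X_pow_mul', Polynomial.coeff_X_pow_mul', if_pos (by omega),
    if_pos (by omega)]
  congr 1
  omega

theorem X_pow_dvd_pol_tr {g : ℂ[X]} {a : ℕ} (h : X ^ a ∣ g) : X ^ a ∣ pol (tr n g) := by
  rw [Polynomial.X_pow_dvd_iff] at h ⊢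
  intro d hd
  rw [coeff_pol]
  split
  · exact h d hd
  · rfl

end Pool.Agent.Lib.MP_8c499d_al
end

section

section

/-!
The model of a pencil of skew forms.
-/

set_option autoImplicit false
set_option linter.unusedSimpArgs false

open Polynomial

namespace Pool.Agent.Lib.MP_8c499d_al

/-- Data of a pencil in Jordan–Kronecker form: Kronecker blocks `i : ι` of size `k i`; components
`c : γ` of the Jordan part, of size `ν c` and eigenvalue `μ c`, dual to the component `st c`. -/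
structure Dat where
  ι : Type
  γ : Type
  [fι : Fintype ι]
  [fγ : Fintype γ]
  [dι : DecidableEq ι]
  [dγ : DecidableEq γ]
  k : ι → ℕ
  ν : γ → ℕ
  μ : γ → ℂ
  st : γ → γ
  ε : γ → ℂ
  st_st : ∀ c, st (st c) = c
  ν_st : ∀ c, ν (st c) = ν c
  μ_st : ∀ c, μ (st c) = μ c
  ε_st : ∀ c, ε (st c) = - ε c
  ε_sq : ∀ c, ε c * ε c = 1

attribute [instance] Dat.fι Dat.fγ Dat.dι Dat.dγ

/-- The model space. -/
abbrev Sp (D : Dat) := (∀ i, E (D.k i)) × (∀ i, E (D.k i + 1)) × (∀ c, E (D.ν c))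

variable {D : Dat}

/-- The involution as a permutation. -/
def Dat.stEquiv (D : Dat) : D.γ ≃ D.γ := ⟨D.st, D.st, D.st_st, D.st_st⟩

/-- First part of the form. -/
noncomputable def formF (s : ℂ[X]) (v w : Sp D) : ℂ := ∑ i, pr (w.2.1 i) (s * pol (v.1 i))

/-- Jordan part of the form. -/
noncomputable def formM (s : ℂ[X]) (v w : Sp D) : ℂ :=
  ∑ c, D.ε c * (taylor (D.μ c) s * pol (v.2.2 c) * pol (w.2.2 (D.st c))).coeff (D.ν c - 1)

/-- The form with symbol `s`; the symbols `1` and `X` give the two forms of the pencil. -/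
noncomputable def form (s : ℂ[X]) : Sp D →ₗ[ℂ] Sp D →ₗ[ℂ] ℂ :=
  LinearMap.mk₂ ℂ (fun v w => formF s v w - formF s w v + formM s v w)
    (fun v v' w => by
      simp only [formF, formM, Prod.fst_add, Prod.snd_add, Pi.add_apply, map_add, mul_add, add_mul,
        LinearMap.add_apply, Polynomial.coeff_add, Finset.sum_add_distrib]
      ring)
    (fun a v w => by
      simp only [formF, formM, Prod.smul_fst, Prod.smul_snd, Pi.smul_apply, map_smul,
        LinearMap.smul_apply, mul_smul_comm, smul_mul_assoc, Polynomial.coeff_smul, smul_eq_mul,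
        mul_left_comm _ a, ← Finset.mul_sum]
      ring)
    (fun v w w' => by
      simp only [formF, formM, Prod.fst_add, Prod.snd_add, Pi.add_apply, map_add, mul_add, add_mul,
        LinearMap.add_apply, Polynomial.coeff_add, Finset.sum_add_distrib]
      ring)
    (fun a v w => by
      simp only [formF, formM, Prod.smul_fst, Prod.smul_snd, Pi.smul_apply, map_smul,
        LinearMap.smul_apply, mul_smul_comm, smul_mul_assoc, Polynomial.coeff_smul, smul_eq_mul,
        mul_left_comm _ a, ← Finset.mul_sum]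
      ring)

theorem form_apply (s : ℂ[X]) (v w : Sp D) :
    form s v w = formF s v w - formF s w v + formM s v w := rfl

theorem formM_skew (s : ℂ[X]) (v w : Sp D) : formM s w v = - formM s v w := by
  unfold formM
  rw [← Finset.sum_neg_distrib, ← Equiv.sum_comp D.stEquiv]
  refine Finset.sum_congr rfl fun c _ => ?_
  show D.ε (D.st c) * (taylor (D.μ (D.st c)) s * pol (w.2.2 (D.st c)) *
    pol (v.2.2 (D.st (D.st c)))).coeff (D.ν (D.st c) - 1) = _
  have h : pol (v.2.2 (D.st (D.st c))) = pol (v.2.2 c) := by rw [D.st_st]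
  have h2 : D.ν (D.st c) - 1 = D.ν c - 1 := by rw [D.ν_st]
  rw [D.ε_st, D.μ_st, h2, h, neg_mul, mul_right_comm]

theorem form_skew (s : ℂ[X]) (v w : Sp D) : form s w v = - form s v w := by
  rw [form_apply, form_apply, formM_skew]
  ring

/-- The vectors in block `i`, first part. -/
noncomputable def ιF (i : D.ι) : E (D.k i) →ₗ[ℂ] Sp D :=
  LinearMap.inl ℂ _ _ ∘ₗ LinearMap.single ℂ (fun i => E (D.k i)) i

/-- The vectors in block `i`, second part. -/
noncomputable def ιL (i : D.ι) : E (D.k i + 1) →ₗ[ℂ] Sp D :=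
  LinearMap.inr ℂ _ _ ∘ₗ LinearMap.inl ℂ _ _ ∘ₗ LinearMap.single ℂ (fun i => E (D.k i + 1)) i

/-- The vectors in component `c` of the Jordan part. -/
noncomputable def ιM (c : D.γ) : E (D.ν c) →ₗ[ℂ] Sp D :=
  LinearMap.inr ℂ _ _ ∘ₗ LinearMap.inr ℂ _ _ ∘ₗ LinearMap.single ℂ (fun c => E (D.ν c)) c

theorem ιF_apply (i : D.ι) (x : E (D.k i)) : ιF i x = (Pi.single i x, 0, 0) := rfl
theorem ιL_apply (i : D.ι) (x : E (D.k i + 1)) : ιL i x = (0, Pi.single i x, 0) := rfl
theorem ιM_apply (c : D.γ) (x : E (D.ν c)) : ιM c x = (0, 0, Pi.single c x) := rfl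

theorem pol_single_ne {i j : D.ι} (x : E (D.k i)) (h : j ≠ i) :
    pol (Pi.single (M := fun i => E (D.k i)) i x j) = 0 := by
  rw [Pi.single_eq_of_ne h, map_zero]

theorem form_ιF_left (s : ℂ[X]) (i : D.ι) (x : E (D.k i)) (w : Sp D) :
    form s (ιF i x) w = pr (w.2.1 i) (s * pol x) := by
  have h1 : formF s (ιF i x) w = pr (w.2.1 i) (s * pol x) := by
    unfold formF
    rw [Finset.sum_eq_single i]
    · simp [ιF_apply]
    · intro j _ hj
      simp [ιF_apply, Pi.single_eq_of_ne hj]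
    · simp
  have h2 : formF s w (ιF i x) = 0 := by simp [formF, ιF_apply]
  have h3 : formM s (ιF i x) w = 0 := by simp [formM, ιF_apply]
  rw [form_apply, h1, h2, h3, sub_zero, add_zero]

theorem form_ιF_right (s : ℂ[X]) (i : D.ι) (x : E (D.k i)) (w : Sp D) :
    form s w (ιF i x) = - pr (w.2.1 i) (s * pol x) := by
  rw [form_skew, form_ιF_left]

theorem form_ιL_right (s : ℂ[X]) (i : D.ι) (y : E (D.k i + 1)) (v : Sp D) :
    form s v (ιL i y) = pr y (s * pol (v.1 i)) := by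
  have h1 : formF s v (ιL i y) = pr y (s * pol (v.1 i)) := by
    unfold formF
    rw [Finset.sum_eq_single i]
    · simp [ιL_apply]
    · intro j _ hj
      simp [ιL_apply, Pi.single_eq_of_ne hj]
    · simp
  have h2 : formF s (ιL i y) v = 0 := by simp [formF, ιL_apply]
  have h3 : formM s v (ιL i y) = 0 := by simp [formM, ιL_apply]
  rw [form_apply, h1, h2, h3, sub_zero, add_zero]

theorem form_ιL_left (s : ℂ[X]) (i : D.ι) (y : E (D.k i + 1)) (v : Sp D) :
    form s (ιL i y) v = - pr y (s * pol (v.1 i)) := by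
  rw [form_skew, form_ιL_right]

theorem form_ιM_left (s : ℂ[X]) (c : D.γ) (m : E (D.ν c)) (w : Sp D) :
    form s (ιM c m) w =
      D.ε c * (taylor (D.μ c) s * pol m * pol (w.2.2 (D.st c))).coeff (D.ν c - 1) := by
  have h1 : formF s (ιM c m) w = 0 := by simp [formF, ιM_apply]
  have h2 : formF s w (ιM c m) = 0 := by simp [formF, ιM_apply]
  have h3 : formM s (ιM c m) w =
      D.ε c * (taylor (D.μ c) s * pol m * pol (w.2.2 (D.st c))).coeff (D.ν c - 1) := by
    unfold formM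
    rw [Finset.sum_eq_single c]
    · simp [ιM_apply]
    · intro j _ hj
      simp [ιM_apply, Pi.single_eq_of_ne hj]
    · simp
  rw [form_apply, h1, h2, h3, sub_zero, zero_add]

theorem form_ιM_right (s : ℂ[X]) (c : D.γ) (m : E (D.ν c)) (w : Sp D) :
    form s w (ιM c m) =
      - (D.ε c * (taylor (D.μ c) s * pol m * pol (w.2.2 (D.st c))).coeff (D.ν c - 1)) := by
  rw [form_skew, form_ιM_left]

theorem sum_ι (v : Sp D) : v = ∑ i, ιF i (v.1 i) + ∑ i, ιL i (v.2.1 i) + ∑ c, ιM c (v.2.2 c) := by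
  refine Prod.ext ?_ (Prod.ext ?_ ?_)
  · simp only [Prod.fst_add, Prod.fst_sum, ιF_apply, ιL_apply, ιM_apply, Finset.sum_const_zero,
      add_zero, Finset.univ_sum_single]
  · simp only [Prod.fst_add, Prod.snd_add, Prod.fst_sum, Prod.snd_sum, ιF_apply, ιL_apply,
      ιM_apply, Finset.sum_const_zero, add_zero, zero_add, Finset.univ_sum_single]
  · simp only [Prod.snd_add, Prod.snd_sum, ιF_apply, ιL_apply, ιM_apply,
      Finset.sum_const_zero, zero_add, Finset.univ_sum_single]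

theorem ιF_fst_same (i : D.ι) (x : E (D.k i)) : (ιF i x).1 i = x := by simp [ιF_apply]
theorem ιL_same (i : D.ι) (x : E (D.k i + 1)) : (ιL i x).2.1 i = x := by simp [ιL_apply]
theorem ιM_same (c : D.γ) (x : E (D.ν c)) : (ιM c x).2.2 c = x := by simp [ιM_apply]

/-- A vector is determined by its pairings. -/
theorem fst_eq_of_form {s : ℂ[X]} {v w : Sp D} {i : D.ι}
    (h : ∀ y, form s v (ιL i y) = form 1 w (ιL i y)) (hs : s.natDegree ≤ 1) :
    s * pol (v.1 i) = pol (w.1 i) := by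
  refine eq_of_pr' (n := D.k i + 1) ?_ ?_ fun y => ?_
  · rcases eq_or_ne (pol (v.1 i)) 0 with h0 | h0
    · rw [h0, mul_zero, degree_zero]
      exact WithBot.bot_lt_coe _
    · rw [degree_mul, add_comm]
      have h1 := degree_pol_lt (v.1 i)
      have h2 : s.degree ≤ (1 : ℕ) := natDegree_le_iff_degree_le.1 hs
      rcases eq_or_ne s 0 with h3 | h3
      · rw [h3, degree_zero]
        simp
      · rw [degree_eq_natDegree h0, degree_eq_natDegree h3] at *
        norm_cast at *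
        omega
  · refine lt_trans (degree_pol_lt _) ?_
    exact_mod_cast Nat.lt_succ_self _
  · have := h y
    rwa [form_ιL_right, form_ιL_right, one_mul] at this

/-- The maps preserving the pencil. -/
def Pres (φ : Sp D →ₗ[ℂ] Sp D) : Prop :=
  ∀ s : ℂ[X], s.natDegree ≤ 1 → ∀ v w, form s (φ v) (φ w) = form s v w

/-- The infinitesimal version. -/
def lie (D : Dat) : Submodule ℂ (Sp D →ₗ[ℂ] Sp D) where
  carrier := {N | ∀ s : ℂ[X], s.natDegree ≤ 1 → ∀ v w, form s (N v) w + form s v (N w) = 0}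
  zero_mem' := by
    intro s _ v w
    simp
  add_mem' := by
    intro N N' h h' s hs v w
    have h1 := h s hs v w
    have h2 := h' s hs v w
    simp only [LinearMap.add_apply, map_add]
    linear_combination h1 + h2
  smul_mem' := by
    intro a N h s hs v w
    have h1 := h s hs v w
    simp only [LinearMap.smul_apply, map_smul, smul_eq_mul]
    linear_combination a * h1

theorem mem_lie {N : Sp D →ₗ[ℂ] Sp D} :
    N ∈ lie D ↔ ∀ s : ℂ[X], s.natDegree ≤ 1 → ∀ v w, form s (N v) w + form s v (N w) = 0 := Iff.rfl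

/-- Adjoint maps give elements of the Lie algebra. -/
theorem sub_mem_lie {α β : Sp D →ₗ[ℂ] Sp D}
    (h : ∀ s : ℂ[X], s.natDegree ≤ 1 → ∀ v w, form s (α v) w = form s v (β w)) :
    α - β ∈ lie D := by
  intro s hs v w
  simp only [LinearMap.sub_apply, map_sub]
  have h1 := h s hs v w
  have h2 : form s (β v) w = form s v (α w) := by
    rw [form_skew s w (β v), ← h s hs w v, form_skew s v (α w)]
    ring
  linear_combination h1 - h2

end Pool.Agent.Lib.MP_8c499d_al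
end

section

/-!
Explicit elements of the Lie algebra of the automorphism group of a pencil.
-/

set_option autoImplicit false
set_option linter.unusedSimpArgs false

open Polynomial

namespace Pool.Agent.Lib.MP_8c499d_al

variable {D : Dat}

/-- The tangent space of the orbit of `v`. -/
def T (v : Sp D) : Submodule ℂ (Sp D) := (lie D).map (LinearMap.applyₗ v)

theorem mem_T {v z : Sp D} : z ∈ T v ↔ ∃ N ∈ lie D, N v = z := Iff.rfl

theorem mem_T_of_adj {α β : Sp D →ₗ[ℂ] Sp D}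
    (h : ∀ s : ℂ[X], s.natDegree ≤ 1 → ∀ v w, form s (α v) w = form s v (β w)) (v : Sp D) :
    α v - β v ∈ T v := ⟨α - β, sub_mem_lie h, rfl⟩

/-- Coordinates. -/
noncomputable def cF (i : D.ι) : Sp D →ₗ[ℂ] E (D.k i) := LinearMap.proj i ∘ₗ LinearMap.fst ℂ _ _

/-- Coordinates. -/
noncomputable def cM (c : D.γ) : Sp D →ₗ[ℂ] E (D.ν c) :=
  LinearMap.proj c ∘ₗ LinearMap.snd ℂ _ _ ∘ₗ LinearMap.snd ℂ _ _

theorem cF_apply (i : D.ι) (v : Sp D) : cF i v = v.1 i := rfl
theorem cM_apply (c : D.γ) (v : Sp D) : cM c v = v.2.2 c := rfl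

/-! ### Multiplication by a polynomial between Kronecker blocks -/

/-- The functionals `g' ↦ y_j (g g')`. -/
noncomputable def lam1 (j : D.ι) (g : ℂ[X]) : Sp D →ₗ[ℂ] ℂ[X] →ₗ[ℂ] ℂ :=
  LinearMap.mk₂ ℂ (fun w g' => pr (w.2.1 j) (g * g'))
    (fun v v' w => by simp)
    (fun a v w => by simp)
    (fun v w w' => by simp [mul_add])
    (fun a v w => by simp)

theorem lam1_apply (j : D.ι) (g g' : ℂ[X]) (w : Sp D) : lam1 j g w g' = pr (w.2.1 j) (g * g') := rfl

theorem degree_mul_lt {g f : ℂ[X]} {a b : ℕ} (hab : a ≤ b) (hg : g.natDegree ≤ b - a)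
    (hf : f.degree < a) : (g * f).degree < b := by
  rcases eq_or_ne f 0 with h0 | h0
  · rw [h0, mul_zero, degree_zero]
    exact WithBot.bot_lt_coe _
  rcases eq_or_ne g 0 with h3 | h3
  · rw [h3, zero_mul, degree_zero]
    exact WithBot.bot_lt_coe _
  rw [degree_mul]
  rw [degree_eq_natDegree h0] at *
  rw [degree_eq_natDegree h3]
  norm_cast at *
  omega

theorem degree_mul_lt_succ {s f : ℂ[X]} {a : ℕ} (hs : s.natDegree ≤ 1)
    (hf : f.degree < a) : (s * f).degree < (a + 1 : ℕ) :=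
  degree_mul_lt (Nat.le_succ a) (by rwa [Nat.add_sub_cancel_left]) hf

theorem mem_T_1 (v : Sp D) {i j : D.ι} (hij : D.k i ≤ D.k j) {g : ℂ[X]}
    (hg : g.natDegree ≤ D.k j - D.k i) :
    ιF j (tr _ (g * pol (v.1 i))) - ιL i (res _ (lam1 j g v)) ∈ T v := by
  refine mem_T_of_adj (α := ιF j ∘ₗ tr _ ∘ₗ LinearMap.mulLeft ℂ g ∘ₗ pol ∘ₗ cF i)
    (β := ιL i ∘ₗ res _ ∘ₗ lam1 j g) (fun s hs v w => ?_) v
  show form s (ιF j (tr _ (g * pol (v.1 i)))) w = form s v (ιL i (res _ (lam1 j g w)))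
  rw [form_ιF_left, form_ιL_right, pol_tr (degree_mul_lt hij hg (degree_pol_lt _)),
    pr_res _ (degree_mul_lt_succ hs (degree_pol_lt _)), lam1_apply, mul_left_comm]

/-! ### Hankel maps -/

/-- The functionals `g' ↦ h (f_i g')`. -/
noncomputable def lam2 (i : D.ι) (h : ℂ[X] →ₗ[ℂ] ℂ) : Sp D →ₗ[ℂ] ℂ[X] →ₗ[ℂ] ℂ :=
  LinearMap.mk₂ ℂ (fun w g' => h (pol (w.1 i) * g'))
    (fun v v' w => by simp [add_mul])
    (fun a v w => by simp)
    (fun v w w' => by simp [mul_add])
    (fun a v w => by simp)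

theorem lam2_apply (i : D.ι) (h : ℂ[X] →ₗ[ℂ] ℂ) (g' : ℂ[X]) (w : Sp D) :
    lam2 i h w g' = h (pol (w.1 i) * g') := rfl

theorem mem_T_2 (v : Sp D) (i j : D.ι) (h : ℂ[X] →ₗ[ℂ] ℂ) :
    ιL j (res _ (lam2 i h v)) + ιL i (res _ (lam2 j h v)) ∈ T v := by
  have := mem_T_of_adj (α := ιL j ∘ₗ res _ ∘ₗ lam2 i h)
    (β := - (ιL i ∘ₗ res _ ∘ₗ lam2 j h)) (fun s hs v w => ?_) v
  · simpa using this
  show form s (ιL j (res _ (lam2 i h v))) w = form s v (- ιL i (res _ (lam2 j h w)))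
  rw [map_neg, form_ιL_left, form_ιL_right, pr_res _ (degree_mul_lt_succ hs (degree_pol_lt _)),
    pr_res _ (degree_mul_lt_succ hs (degree_pol_lt _)), lam2_apply, lam2_apply]
  congr 2
  ring

/-! ### Maps between components of the Jordan part -/

/-- Multiplication by `u` from component `c` to component `c'`. -/
noncomputable def mapM (c c' : D.γ) (u : ℂ[X]) : Sp D →ₗ[ℂ] Sp D :=
  ιM c' ∘ₗ tr _ ∘ₗ LinearMap.mulLeft ℂ u ∘ₗ pol ∘ₗ cM c

theorem mapM_apply (c c' : D.γ) (u : ℂ[X]) (v : Sp D) :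
    mapM c c' u v = ιM c' (tr _ (u * pol (v.2.2 c))) := rfl

theorem form_mapM (s : ℂ[X]) {c c' : D.γ} (hc : D.μ c = D.μ c') (u : ℂ[X]) (v w : Sp D) :
    form s (mapM c c' (X ^ (D.ν c' - D.ν c) * u) v) w =
    form s v ((D.ε c' * D.ε c) • mapM (D.st c') (D.st c) (X ^ (D.ν c - D.ν c') * u) w) := by
  have h1 : pol (v.2.2 (D.st (D.st c))) = pol (v.2.2 c) := by rw [D.st_st]
  have h2 : D.ν (D.st c) - 1 = D.ν c - 1 := by rw [D.ν_st]
  rw [mapM_apply, mapM_apply, map_smul, form_ιM_left, form_ιM_right, h1, h2, D.μ_st, D.ε_st,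
    smul_eq_mul, neg_mul, neg_neg, mul_assoc (D.ε c'), ← mul_assoc (D.ε c) (D.ε c), D.ε_sq,
    one_mul]
  congr 1
  rcases eq_or_ne (D.ν c) 0 with h3 | h3
  · rw [pol_size_zero h3 (v.2.2 c)]
    simp
  rcases eq_or_ne (D.ν c') 0 with h4 | h4
  · rw [pol_size_zero (by rw [D.ν_st, h4]) (w.2.2 (D.st c'))]
    simp
  have h5 : D.ν (D.st c) ≠ 0 := by rwa [D.ν_st]
  have h6 := coeff_pol_tr_mul (X ^ (D.ν c' - D.ν c) * u * pol (v.2.2 c))
    (taylor (D.μ c') s * pol (w.2.2 (D.st c'))) h4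
  have h7 := coeff_pol_tr_mul (X ^ (D.ν c - D.ν c') * u * pol (w.2.2 (D.st c')))
    (taylor (D.μ c) s * pol (v.2.2 c)) h5
  rw [h2] at h7
  have h8 := coeff_shift (u * taylor (D.μ c) s * pol (v.2.2 c) * pol (w.2.2 (D.st c'))) h3 h4
  calc _ = (pol (tr (D.ν c') (X ^ (D.ν c' - D.ν c) * u * pol (v.2.2 c))) *
      (taylor (D.μ c') s * pol (w.2.2 (D.st c')))).coeff (D.ν c' - 1) := by congr 1; ring
    _ = (X ^ (D.ν c' - D.ν c) * u * pol (v.2.2 c) *
      (taylor (D.μ c') s * pol (w.2.2 (D.st c')))).coeff (D.ν c' - 1) := h6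
    _ = (X ^ (D.ν c' - D.ν c) * (u * taylor (D.μ c) s * pol (v.2.2 c) *
      pol (w.2.2 (D.st c')))).coeff (D.ν c' - 1) := by rw [hc]; congr 1; ring
    _ = (X ^ (D.ν c - D.ν c') * (u * taylor (D.μ c) s * pol (v.2.2 c) *
      pol (w.2.2 (D.st c')))).coeff (D.ν c - 1) := h8
    _ = (X ^ (D.ν c - D.ν c') * u * pol (w.2.2 (D.st c')) *
      (taylor (D.μ c) s * pol (v.2.2 c))).coeff (D.ν c - 1) := by congr 1; ring
    _ = (pol (tr (D.ν (D.st c)) (X ^ (D.ν c - D.ν c') * u * pol (w.2.2 (D.st c')))) *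
      (taylor (D.μ c) s * pol (v.2.2 c))).coeff (D.ν c - 1) := h7.symm
    _ = _ := by congr 1; ring

theorem mem_T_3 (v : Sp D) {c c' : D.γ} (hc : D.μ c = D.μ c') (u : ℂ[X]) :
    ιM c' (tr _ (X ^ (D.ν c' - D.ν c) * u * pol (v.2.2 c))) -
      (D.ε c' * D.ε c) •
        ιM (D.st c) (tr _ (X ^ (D.ν c - D.ν c') * u * pol (v.2.2 (D.st c')))) ∈ T v :=
  mem_T_of_adj (α := mapM c c' (X ^ (D.ν c' - D.ν c) * u))
    (β := (D.ε c' * D.ε c) • mapM (D.st c') (D.st c) (X ^ (D.ν c - D.ν c') * u))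
    (fun s _ v w => form_mapM s hc u v w) v

/-! ### Maps from a Kronecker block to a component of the Jordan part -/

/-- The functionals `g' ↦ ε (coefficient of u g' m)`. -/
noncomputable def lam4 (c : D.γ) (u : ℂ[X]) : Sp D →ₗ[ℂ] ℂ[X] →ₗ[ℂ] ℂ :=
  LinearMap.mk₂ ℂ (fun w g' => D.ε c *
      (u * taylor (D.μ c) g' * pol (w.2.2 (D.st c))).coeff (D.ν c - 1))
    (fun v v' w => by simp [mul_add])
    (fun a v w => by simp [mul_left_comm])
    (fun v w w' => by simp [mul_add, add_mul])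
    (fun a v w => by simp [mul_left_comm])

theorem lam4_apply (c : D.γ) (u g' : ℂ[X]) (w : Sp D) : lam4 c u w g' =
    D.ε c * (u * taylor (D.μ c) g' * pol (w.2.2 (D.st c))).coeff (D.ν c - 1) := rfl

/-- Taylor expansion at the eigenvalue from block `i` to component `c`. -/
noncomputable def mapFM (i : D.ι) (c : D.γ) (u : ℂ[X]) : Sp D →ₗ[ℂ] Sp D :=
  ιM c ∘ₗ tr _ ∘ₗ LinearMap.mulLeft ℂ u ∘ₗ (taylor (D.μ c)) ∘ₗ pol ∘ₗ cF i

theorem mapFM_apply (i : D.ι) (c : D.γ) (u : ℂ[X]) (v : Sp D) :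
    mapFM i c u v = ιM c (tr _ (u * taylor (D.μ c) (pol (v.1 i)))) := rfl

theorem mem_T_4 (v : Sp D) (i : D.ι) (c : D.γ) (u : ℂ[X]) :
    ιM c (tr _ (u * taylor (D.μ c) (pol (v.1 i)))) - ιL i (res _ (lam4 c u v)) ∈ T v := by
  refine mem_T_of_adj (α := mapFM i c u) (β := ιL i ∘ₗ res _ ∘ₗ lam4 c u) (fun s hs v w => ?_) v
  rw [mapFM_apply, LinearMap.comp_apply, LinearMap.comp_apply, form_ιM_left, form_ιL_right,
    pr_res _ (degree_mul_lt_succ hs (degree_pol_lt _)), lam4_apply]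
  congr 1
  rcases eq_or_ne (D.ν c) 0 with h3 | h3
  · rw [pol_size_zero (by rw [D.ν_st, h3]) (w.2.2 (D.st c))]
    simp
  have h6 := coeff_pol_tr_mul (u * taylor (D.μ c) (pol (v.1 i)))
    (taylor (D.μ c) s * pol (w.2.2 (D.st c))) h3
  calc _ = (pol (tr (D.ν c) (u * taylor (D.μ c) (pol (v.1 i)))) *
      (taylor (D.μ c) s * pol (w.2.2 (D.st c)))).coeff (D.ν c - 1) := by congr 1; ring
    _ = (u * taylor (D.μ c) (pol (v.1 i)) *
      (taylor (D.μ c) s * pol (w.2.2 (D.st c)))).coeff (D.ν c - 1) := h6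
    _ = _ := by rw [taylor_mul]; congr 1; ring

end Pool.Agent.Lib.MP_8c499d_al
end

section

/-!
The invariants of a vector and the tangent space of its orbit.
-/

set_option autoImplicit false
set_option linter.unusedSimpArgs false

open Polynomial

namespace Pool.Agent.Lib.MP_8c499d_al

variable {D : Dat}

/-- The subspace described by the families `F`, `Z`, `a`. -/
def U (D : Dat) (F Z : ℕ → Submodule ℂ ℂ[X]) (a : ℂ → ℕ → ℕ) : Submodule ℂ (Sp D) where
  carrier := {z | (∀ i, pol (z.1 i) ∈ F (D.k i)) ∧ (∀ i, ∀ g ∈ Z (D.k i), pr (z.2.1 i) g = 0) ∧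
    ∀ c, X ^ a (D.μ c) (D.ν c) ∣ pol (z.2.2 c)}
  zero_mem' := by simp
  add_mem' := by
    rintro x y ⟨h1, h2, h3⟩ ⟨h1', h2', h3'⟩
    refine ⟨fun i => ?_, fun i g hg => ?_, fun c => ?_⟩
    · rw [Prod.fst_add, Pi.add_apply, map_add]
      exact add_mem (h1 i) (h1' i)
    · rw [Prod.snd_add, Prod.fst_add, Pi.add_apply, map_add, LinearMap.add_apply, h2 i g hg,
        h2' i g hg, add_zero]
    · rw [Prod.snd_add, Prod.snd_add, Pi.add_apply, map_add]
      exact dvd_add (h3 c) (h3' c)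
  smul_mem' := by
    rintro a x ⟨h1, h2, h3⟩
    refine ⟨fun i => ?_, fun i g hg => ?_, fun c => ?_⟩
    · rw [Prod.smul_fst, Pi.smul_apply, map_smul]
      exact Submodule.smul_mem _ _ (h1 i)
    · rw [Prod.smul_snd, Prod.smul_fst, Pi.smul_apply, map_smul, LinearMap.smul_apply, h2 i g hg,
        smul_zero]
    · rw [Prod.smul_snd, Prod.smul_snd, Pi.smul_apply, map_smul]
      exact dvd_smul_of_dvd a (h3 c)

theorem mem_U {F Z : ℕ → Submodule ℂ ℂ[X]} {a : ℂ → ℕ → ℕ} {z : Sp D} :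
    z ∈ U D F Z a ↔ (∀ i, pol (z.1 i) ∈ F (D.k i)) ∧
      (∀ i, ∀ g ∈ Z (D.k i), pr (z.2.1 i) g = 0) ∧ ∀ c, X ^ a (D.μ c) (D.ν c) ∣ pol (z.2.2 c) :=
  Iff.rfl

/-- The polynomials of degree `< d` obtained from the first components. -/
noncomputable def Fd (v : Sp D) (d : ℕ) : Submodule ℂ ℂ[X] :=
  Submodule.span ℂ {x | ∃ i g, D.k i ≤ d ∧ g.natDegree ≤ d - D.k i ∧ x = g * pol (v.1 i)}

/-- The polynomials of degree `≤ d` annihilating `v`. -/
noncomputable def Zd (v : Sp D) (d : ℕ) : Submodule ℂ ℂ[X] where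
  carrier := {g | g.degree < (d + 1 : ℕ) ∧ (v.1 ≠ 0 → g = 0) ∧
    (∀ j, d ≤ D.k j → ∀ c : ℂ[X], c.natDegree ≤ D.k j - d → pr (v.2.1 j) (c * g) = 0) ∧
    ∀ c, X ^ D.ν c ∣ taylor (D.μ c) g * pol (v.2.2 c)}
  zero_mem' := by simp
  add_mem' := by
    rintro x y ⟨h1, h2, h3, h4⟩ ⟨h1', h2', h3', h4'⟩
    refine ⟨lt_of_le_of_lt (degree_add_le _ _) (max_lt h1 h1'), fun h => by rw [h2 h, h2' h,
      add_zero], fun j hj c hc => by rw [mul_add, map_add, h3 j hj c hc, h3' j hj c hc, add_zero],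
      fun c => ?_⟩
    rw [map_add, add_mul]
    exact dvd_add (h4 c) (h4' c)
  smul_mem' := by
    rintro a x ⟨h1, h2, h3, h4⟩
    refine ⟨lt_of_le_of_lt (degree_smul_le _ _) h1, fun h => by rw [h2 h, smul_zero],
      fun j hj c hc => by rw [mul_smul_comm, map_smul, h3 j hj c hc, smul_zero], fun c => ?_⟩
    rw [map_smul, smul_mul_assoc]
    exact dvd_smul_of_dvd a (h4 c)

theorem mem_Zd {v : Sp D} {d : ℕ} {g : ℂ[X]} : g ∈ Zd v d ↔ g.degree < (d + 1 : ℕ) ∧
    (v.1 ≠ 0 → g = 0) ∧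
    (∀ j, d ≤ D.k j → ∀ c : ℂ[X], c.natDegree ≤ D.k j - d → pr (v.2.1 j) (c * g) = 0) ∧
    ∀ c, X ^ D.ν c ∣ taylor (D.μ c) g * pol (v.2.2 c) := Iff.rfl

/-- The height of `v` at the eigenvalue `m` and the size `n` is at least `e`. -/
def Good (v : Sp D) (m : ℂ) (n e : ℕ) : Prop :=
  (∀ i, (X - C m) ^ e ∣ pol (v.1 i)) ∧
    ∀ c, D.μ c = m → X ^ e ∣ X ^ (n - D.ν c) * pol (v.2.2 c)

open Classical in
/-- The height of `v` at the eigenvalue `m` and the size `n`. -/
noncomputable def ht (v : Sp D) (m : ℂ) (n : ℕ) : ℕ := Nat.findGreatest (Good v m n) n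

theorem ht_le (v : Sp D) (m : ℂ) (n : ℕ) : ht v m n ≤ n := by
  classical
  exact Nat.findGreatest_le n

theorem good_zero (v : Sp D) (m : ℂ) (n : ℕ) : Good v m n 0 := ⟨fun i => by simp, fun c _ => by simp⟩

theorem good_ht (v : Sp D) (m : ℂ) (n : ℕ) : Good v m n (ht v m n) := by
  classical
  exact Nat.findGreatest_spec (P := Good v m n) (Nat.zero_le n) (good_zero v m n)

theorem Good.mono {v : Sp D} {m : ℂ} {n e e' : ℕ} (h : Good v m n e) (he : e' ≤ e) :
    Good v m n e' :=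
  ⟨fun i => (pow_dvd_pow _ he).trans (h.1 i), fun c hc => (pow_dvd_pow _ he).trans (h.2 c hc)⟩

theorem le_ht {v : Sp D} {m : ℂ} {n e : ℕ} (h : Good v m n e) (he : e ≤ n) : e ≤ ht v m n := by
  classical
  exact Nat.le_findGreatest he h

theorem not_good {v : Sp D} {m : ℂ} {n : ℕ} (h : ht v m n < n) : ¬ Good v m n (ht v m n + 1) :=
  fun h' => by
    have := le_ht h' h
    omega

/-- The subspace generated by `v`. -/
noncomputable def S (v : Sp D) : Submodule ℂ (Sp D) := U D (Fd v) (Zd v) (ht v)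

/-! ### Truncated polynomials -/

theorem tr_X_pow_mul (n : ℕ) (g : ℂ[X]) : tr n (X ^ n * g) = 0 := by
  ext r
  rw [tr_apply, coeff_X_pow_mul', if_neg (by omega)]
  rfl

theorem exists_mul_eq {p z : ℂ[X]} {a n : ℕ} (h1 : X ^ a ∣ p) (h2 : ¬ X ^ (a + 1) ∣ p)
    (h3 : X ^ a ∣ z) : ∃ u, tr n (u * p) = tr n z := by
  obtain ⟨p1, rfl⟩ := h1
  obtain ⟨z1, rfl⟩ := h3
  have h4 : ¬ X ∣ p1 := fun h => h2 (by
    rw [pow_succ]
    exact mul_dvd_mul_left _ h)
  have h5 : IsCoprime p1 (X ^ n : ℂ[X]) := by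
    refine IsCoprime.pow_right ?_
    exact ((Polynomial.prime_X.irreducible.coprime_iff_not_dvd).2 h4).symm
  obtain ⟨r, s, h6⟩ := h5
  refine ⟨z1 * r, ?_⟩
  have h7 : z1 * r * (X ^ a * p1) = X ^ a * z1 - X ^ n * (X ^ a * z1 * s) := by
    linear_combination (X ^ a * z1) * h6
  rw [h7, map_sub, tr_X_pow_mul, sub_zero]

/-! ### The tangent space -/

theorem two_smul_mem {W : Submodule ℂ (Sp D)} {x : Sp D} (h : x + x ∈ W) : x ∈ W := by
  have : x = (1 / 2 : ℂ) • (x + x) := by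
    rw [← two_smul ℂ x, smul_smul]
    norm_num
  rw [this]
  exact W.smul_mem _ h

theorem exists_functional {m : ℕ} {f : ℂ[X]} (hf : f ≠ 0) (y : E m) :
    ∃ h : ℂ[X] →ₗ[ℂ] ℂ, ∀ g, h (f * g) = pr y g := by
  obtain ⟨r, hr⟩ := LinearMap.exists_leftInverse_of_injective (LinearMap.mulLeft ℂ f)
    (LinearMap.ker_eq_bot.2 (mul_right_injective₀ hf))
  refine ⟨pr y ∘ₗ r, fun g => ?_⟩
  have := LinearMap.congr_fun hr g
  rw [LinearMap.comp_apply, LinearMap.mulLeft_apply, LinearMap.id_apply] at this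
  rw [LinearMap.comp_apply, this]

theorem ιL_mem_T {v : Sp D} (hv : v.1 ≠ 0) (j : D.ι) (y : E (D.k j + 1)) : ιL j y ∈ T v := by
  obtain ⟨i0, hi⟩ := Function.ne_iff.1 hv
  have hi' : pol (v.1 i0) ≠ 0 := fun h => hi (pol_eq_zero h)
  have key : ∀ y : E (D.k i0 + 1), ιL i0 y ∈ T v := by
    intro y
    obtain ⟨h, hh⟩ := exists_functional hi' y
    have h1 := mem_T_2 v i0 i0 h
    have h2 : res (D.k i0 + 1) (lam2 i0 h v) = y := by
      rw [← res_pr y]
      congr 1
      ext g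
      simp [lam2_apply, hh]
    rw [h2] at h1
    exact two_smul_mem h1
  obtain ⟨h, hh⟩ := exists_functional hi' y
  have h1 := mem_T_2 v i0 j h
  have h2 : res (D.k j + 1) (lam2 i0 h v) = y := by
    rw [← res_pr y]
    congr 1
    ext g
    simp [lam2_apply, hh]
  rw [h2] at h1
  have h3 := sub_mem h1 (key (res (D.k i0 + 1) (lam2 j h v)))
  rwa [add_sub_cancel_right] at h3

theorem ιF_mem_T {v : Sp D} {j : D.ι} {x : ℂ[X]} (hx : x ∈ Fd v (D.k j)) :
    ιF j (tr _ x) ∈ T v := by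
  rcases eq_or_ne v.1 0 with hv | hv
  · have : Fd v (D.k j) = ⊥ := by
      rw [Fd, Submodule.span_eq_bot]
      rintro x ⟨i, g, _, _, rfl⟩
      rw [hv]
      simp
    rw [this, Submodule.mem_bot] at hx
    rw [hx, map_zero, map_zero]
    exact zero_mem _
  · induction hx using Submodule.span_induction with
    | mem x hx =>
      obtain ⟨i, g, h1, h2, rfl⟩ := hx
      have h3 := add_mem (mem_T_1 v h1 h2) (ιL_mem_T hv i (res _ (lam1 j g v)))
      rwa [sub_add_cancel] at h3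
    | zero => simp
    | add x y _ _ hx hy => rw [map_add, map_add]; exact add_mem hx hy
    | smul a x _ hx => rw [map_smul, map_smul]; exact Submodule.smul_mem _ _ hx

theorem ιM_star_mem_T (v : Sp D) (c : D.γ) (u : ℂ[X]) :
    ιM (D.st c) (tr _ (u * pol (v.2.2 c))) ∈ T v := by
  have h := mem_T_3 v (c := c) (c' := D.st c) (D.μ_st c).symm u
  have h1 : D.ν (D.st c) - D.ν c = 0 := by rw [D.ν_st, Nat.sub_self]
  have h2 : D.ν c - D.ν (D.st c) = 0 := by rw [D.ν_st, Nat.sub_self]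
  have h3 : pol (v.2.2 (D.st (D.st c))) = pol (v.2.2 c) := by rw [D.st_st]
  rw [h1, h2, h3, pow_zero, one_mul, D.ε_st, neg_mul, D.ε_sq, neg_one_smul, sub_neg_eq_add] at h
  exact two_smul_mem h

theorem ιM_mem_T {v : Sp D} {c : D.γ} {z : E (D.ν c)}
    (hz : X ^ ht v (D.μ c) (D.ν c) ∣ pol z) : ιM c z ∈ T v := by
  classical
  rcases Nat.lt_or_ge (ht v (D.μ c) (D.ν c)) (D.ν c) with h | h
  swap
  · have : z = 0 := by
      refine pol_eq_zero ?_
      by_contra h0
      have h1 := degree_le_of_dvd hz h0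
      rw [degree_X_pow] at h1
      have h2 := degree_pol_lt z
      have h3 := lt_of_le_of_lt h1 h2
      norm_cast at h3
      omega
    rw [this, map_zero]
    exact zero_mem _
  have hg := good_ht v (D.μ c) (D.ν c)
  have hng := not_good h
  set a := ht v (D.μ c) (D.ν c) with ha
  rw [Good, not_and_or] at hng
  rcases hng with hng | hng
  · push Not at hng
    obtain ⟨i, hi⟩ := hng
    have hv : v.1 ≠ 0 := by
      intro h0
      rw [h0] at hi
      simp at hi
    have h1 : X ^ a ∣ taylor (D.μ c) (pol (v.1 i)) := by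
      have := (hg.1 i)
      have h2 := map_dvd (taylorAlgHom (D.μ c)) this
      simpa using h2
    have h2 : ¬ X ^ (a + 1) ∣ taylor (D.μ c) (pol (v.1 i)) := by
      intro h3
      refine hi ?_
      have h4 := map_dvd (taylorAlgHom (- D.μ c)) h3
      simpa [taylor_taylor, sub_eq_add_neg] using h4
    obtain ⟨u, hu⟩ := exists_mul_eq (n := D.ν c) h1 h2 hz
    have h3 := add_mem (mem_T_4 v i c u) (ιL_mem_T hv i (res _ (lam4 c u v)))
    rwa [sub_add_cancel, hu, tr_pol] at h3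
  · push Not at hng
    obtain ⟨c', hc', hi⟩ := hng
    have h1 := hg.2 c' hc'
    -- the side effect
    have h5 : ∀ x : E (D.ν (D.st c')), X ^ a ∣ pol x → ιM (D.st c') x ∈ T v := by
      intro x hx
      have hp : pol (v.2.2 c') ≠ 0 := by
        intro h0
        rw [h0, mul_zero] at hi
        exact hi (dvd_zero _)
      obtain ⟨q, hq, hq'⟩ := exists_eq_pow_rootMultiplicity_mul_and_not_dvd _ hp 0
      rw [C_0, sub_zero] at hq hq'
      set o := rootMultiplicity 0 (pol (v.2.2 c')) with ho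
      have ho1 : X ^ o ∣ pol (v.2.2 c') := ⟨q, hq⟩
      have ho2 : ¬ X ^ (o + 1) ∣ pol (v.2.2 c') := by
        rw [hq, pow_succ]
        intro h0
        exact hq' ((mul_dvd_mul_iff_left (pow_ne_zero _ X_ne_zero)).1 h0)
      have ho3 : o ≤ a := by
        by_contra h0
        exact hi (Dvd.dvd.mul_left ((pow_dvd_pow _ (by omega)).trans ho1) _)
      obtain ⟨u, hu⟩ := exists_mul_eq (n := D.ν (D.st c')) ho1 ho2
        ((pow_dvd_pow _ ho3).trans hx)
      rw [tr_pol] at hu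
      rw [← hu]
      exact ιM_star_mem_T v c' u
    obtain ⟨u, hu⟩ := exists_mul_eq (n := D.ν c) h1 hi hz
    have h3 := mem_T_3 v hc' u
    have h4 : ιM (D.st c') (tr (D.ν (D.st c')) (X ^ (D.ν c' - D.ν c) * u *
        pol (v.2.2 (D.st c)))) ∈ T v := by
      refine h5 _ (X_pow_dvd_pol_tr ?_)
      have := hg.2 (D.st c) (D.μ_st c)
      have h0 : D.ν c - D.ν (D.st c) = 0 := by rw [D.ν_st, Nat.sub_self]
      rw [h0, pow_zero, one_mul] at this
      exact Dvd.dvd.mul_left this _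
    have h6 := add_mem h3 ((T v).smul_mem (D.ε c * D.ε c') h4)
    rw [sub_add_cancel] at h6
    have h7 : X ^ (D.ν c - D.ν c') * u * pol (v.2.2 c') =
      u * (X ^ (D.ν c - D.ν c') * pol (v.2.2 c')) := by ring
    rwa [h7, hu, tr_pol] at h6

/-- If all vectors in the second part of block `i` which are tangent to the orbit of `v` vanish
on `g`, then `g` annihilates `v`. -/
theorem mem_Zd_of {v : Sp D} {i : D.ι} {g : ℂ[X]} (hg : g.degree < (D.k i + 1 : ℕ))
    (h : ∀ y, ιL i y ∈ T v → pr y g = 0) : g ∈ Zd v (D.k i) := by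
  have h0 : v.1 ≠ 0 → g = 0 := by
    intro hv
    refine eq_of_pr' hg (by rw [degree_zero]; exact WithBot.bot_lt_coe _) fun y => ?_
    rw [h y (ιL_mem_T hv i y), map_zero]
  by_cases hv : v.1 = 0
  swap
  · rw [h0 hv]
    exact zero_mem _
  refine ⟨hg, h0, fun j hj c hc => ?_, fun c => ?_⟩
  · have h1 := mem_T_1 v hj hc
    rw [hv] at h1
    have h2 : ιF j (tr (D.k j) (c * pol ((0 : ∀ i, E (D.k i)) i))) = 0 := by simp
    rw [h2, zero_sub, Submodule.neg_mem_iff] at h1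
    have h3 := h _ h1
    rwa [pr_res _ hg, lam1_apply] at h3
  · rw [X_pow_dvd_iff]
    intro d hd
    have h1 := mem_T_4 v i (D.st c) (X ^ (D.ν c - 1 - d))
    have h2 : ιM (D.st c) (tr (D.ν (D.st c)) (X ^ (D.ν c - 1 - d) *
        taylor (D.μ (D.st c)) (pol (v.1 i)))) = 0 := by
      rw [hv]
      simp
    rw [h2, zero_sub, Submodule.neg_mem_iff] at h1
    have h3 := h _ h1
    have h4 : pol (v.2.2 (D.st (D.st c))) = pol (v.2.2 c) := by rw [D.st_st]
    have h5 : D.ν (D.st c) - 1 = D.ν c - 1 := by rw [D.ν_st]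
    rw [pr_res _ hg, lam4_apply, h4, h5, D.μ_st] at h3
    have h6 : D.ε (D.st c) ≠ 0 := by
      intro h7
      have := D.ε_sq (D.st c)
      rw [h7] at this
      simp at this
    have h7 := (mul_eq_zero.1 h3).resolve_left h6
    rw [mul_assoc, coeff_X_pow_mul', if_pos (by omega)] at h7
    have h8 : D.ν c - 1 - (D.ν c - 1 - d) = d := by omega
    rwa [h8] at h7

theorem ιL_mem_of {W : Submodule ℂ (Sp D)} {i : D.ι} {y : E (D.k i + 1)}
    (h : ∀ g : ℂ[X], g.degree < (D.k i + 1 : ℕ) → (∀ y', ιL i y' ∈ W → pr y' g = 0) →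
      pr y g = 0) : ιL i y ∈ W := by
  by_contra h0
  have h1 : y ∉ W.comap (ιL i) := h0
  obtain ⟨g, hg, h2, h3⟩ := exists_pol_of_notMem h1
  exact h3 (h g hg fun y' hy' => h2 y' hy')

theorem ιL_mem_T' {v : Sp D} {i : D.ι} {y : E (D.k i + 1)}
    (h : ∀ g ∈ Zd v (D.k i), pr y g = 0) : ιL i y ∈ T v :=
  ιL_mem_of fun g hg hg' => h g (mem_Zd_of hg hg')

/-- The subspace generated by `v` is contained in the tangent space. -/
theorem S_le_T (v : Sp D) : S v ≤ T v := by
  rintro z ⟨h1, h2, h3⟩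
  rw [sum_ι z]
  refine add_mem (add_mem (sum_mem fun i _ => ?_) (sum_mem fun i _ => ?_))
    (sum_mem fun c _ => ?_)
  · have := ιF_mem_T (h1 i)
    rwa [tr_pol] at this
  · exact ιL_mem_T' (h2 i)
  · exact ιM_mem_T (h3 c)

theorem self_mem_S (v : Sp D) : v ∈ S v := by
  refine ⟨fun i => ?_, fun i g hg => ?_, fun c => ?_⟩
  · exact Submodule.subset_span ⟨i, 1, le_rfl, by simp, by rw [one_mul]⟩
  · have := hg.2.2.1 i le_rfl 1 (by simp)
    rwa [one_mul] at this
  · have := (good_ht v (D.μ c) (D.ν c)).2 c rfl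
    rwa [Nat.sub_self, pow_zero, one_mul] at this

end Pool.Agent.Lib.MP_8c499d_al
end

section

/-!
The structure of the automorphisms of a pencil.
-/

set_option autoImplicit false
set_option linter.unusedSimpArgs false

open Polynomial

namespace Pool.Agent.Lib.MP_8c499d_al

variable {D : Dat}

/-- The automorphisms of the pencil. -/
def Aut (φ : Sp D ≃ₗ[ℂ] Sp D) : Prop :=
  ∀ s : ℂ[X], s.natDegree ≤ 1 → ∀ v w, form s (φ v) (φ w) = form s v w

theorem Aut.symm {φ : Sp D ≃ₗ[ℂ] Sp D} (h : Aut φ) : Aut φ.symm := by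
  intro s hs v w
  have := h s hs (φ.symm v) (φ.symm w)
  rw [φ.apply_symm_apply, φ.apply_symm_apply] at this
  exact this.symm

theorem Aut.form_right {φ : Sp D ≃ₗ[ℂ] Sp D} (h : Aut φ) {s : ℂ[X]} (hs : s.natDegree ≤ 1)
    (v w : Sp D) : form s v (φ w) = form s (φ.symm v) w := by
  rw [← h s hs (φ.symm v) w, φ.apply_symm_apply]

theorem Aut.form_left {φ : Sp D ≃ₗ[ℂ] Sp D} (h : Aut φ) {s : ℂ[X]} (hs : s.natDegree ≤ 1)
    (v w : Sp D) : form s (φ v) w = form s v (φ.symm w) := by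
  rw [← h s hs v (φ.symm w), φ.apply_symm_apply]

/-- The relation between `u` and `u'` given by the forms. -/
def Rel (m : ℂ) (u u' : Sp D) : Prop := ∀ x, form (X - C m) x u = form 1 x u'

theorem natDegree_X_sub_C_le_one (m : ℂ) : (X - C m).natDegree ≤ 1 := (natDegree_X_sub_C m).le

theorem Rel.map {φ : Sp D ≃ₗ[ℂ] Sp D} (h : Aut φ) {m : ℂ} {u u' : Sp D} (hr : Rel m u u') :
    Rel m (φ u) (φ u') := by
  intro x
  rw [h.form_right (natDegree_X_sub_C_le_one m), h.form_right (by simp)]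
  exact hr _

theorem Rel.fst {m : ℂ} {u u' : Sp D} (h : Rel m u u') (j : D.ι) :
    (X - C m) * pol (u.1 j) = pol (u'.1 j) := by
  refine eq_of_pr' (n := D.k j + 1) ?_ ?_ fun y => ?_
  · exact degree_mul_lt_succ (natDegree_X_sub_C_le_one m) (degree_pol_lt _)
  · refine lt_trans (degree_pol_lt _) ?_
    exact_mod_cast Nat.lt_succ_self _
  · have := h (ιL j y)
    rw [form_ιL_left, form_ιL_left, one_mul, neg_inj] at this
    exact this

theorem Rel.snd {m : ℂ} {u u' : Sp D} (h : Rel m u u') (j : D.ι) {g : ℂ[X]}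
    (hg : g.degree < D.k j) : pr (u.2.1 j) ((X - C m) * g) = pr (u'.2.1 j) g := by
  have := h (ιF j (tr _ g))
  rwa [form_ιF_left, form_ιF_left, pol_tr hg, one_mul] at this

theorem ε_ne_zero (c : D.γ) : D.ε c ≠ 0 := by
  intro h
  have := D.ε_sq c
  rw [h] at this
  simp at this

theorem X_pow_dvd_of_coeff {n : ℕ} {p : ℂ[X]}
    (h : ∀ d < n, (pol (tr n (X ^ (n - 1 - d))) * p).coeff (n - 1) = 0) : X ^ n ∣ p := by
  rw [X_pow_dvd_iff]
  intro d hd
  have := h d hd
  rw [coeff_pol_tr_mul _ _ (by omega), coeff_X_pow_mul', if_pos (by omega)] at this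
  have h8 : n - 1 - (n - 1 - d) = d := by omega
  rwa [h8] at this

theorem Rel.thd {m : ℂ} {u u' : Sp D} (h : Rel m u u') (c : D.γ) :
    X ^ D.ν c ∣ (X + C (D.μ c - m)) * pol (u.2.2 c) - pol (u'.2.2 c) := by
  refine X_pow_dvd_of_coeff fun d hd => ?_
  have h1 := h (ιM (D.st c) (tr _ (X ^ (D.ν c - 1 - d))))
  have h4 : pol (u.2.2 (D.st (D.st c))) = pol (u.2.2 c) := by rw [D.st_st]
  have h4' : pol (u'.2.2 (D.st (D.st c))) = pol (u'.2.2 c) := by rw [D.st_st]
  have h5 : D.ν (D.st c) - 1 = D.ν c - 1 := by rw [D.ν_st]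
  have h6 : pol (tr (D.ν (D.st c)) (X ^ (D.ν c - 1 - d))) =
    pol (tr (D.ν c) (X ^ (D.ν c - 1 - d))) := by rw [D.ν_st]
  have h7 : taylor (D.μ c) (X - C m) = X + C (D.μ c - m) := by
    rw [map_sub, taylor_X, taylor_C, C_sub]
    ring
  rw [form_ιM_left, form_ιM_left, h4, h4', h5, h6, D.μ_st, h7, taylor_one, C_1, one_mul] at h1
  have h2 := mul_left_cancel₀ (ε_ne_zero _) h1
  rw [mul_sub, coeff_sub, sub_eq_zero, ← h2]
  congr 1
  ring

/-! ### Chains -/

theorem chain_fst {m : ℂ} {w : ℕ → Sp D} (h : ∀ l, Rel m (w l) (w (l + 1))) (j : D.ι) (e : ℕ) :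
    (X - C m) ^ e * pol ((w 0).1 j) = pol ((w e).1 j) := by
  induction e with
  | zero => simp
  | succ e ih => rw [pow_succ', mul_assoc, ih, (h e).fst]

theorem chain_thd {m : ℂ} {w : ℕ → Sp D} (h : ∀ l, Rel m (w l) (w (l + 1))) (c : D.γ) (e : ℕ) :
    X ^ D.ν c ∣ (X + C (D.μ c - m)) ^ e * pol ((w 0).2.2 c) - pol ((w e).2.2 c) := by
  induction e with
  | zero => simp
  | succ e ih =>
    have h1 := dvd_add (Dvd.dvd.mul_left ih (X + C (D.μ c - m))) ((h e).thd c)
    rw [pow_succ']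
    convert h1 using 1
    ring

theorem chain_snd {m : ℂ} {w : ℕ → Sp D} (h : ∀ l, Rel m (w l) (w (l + 1))) (j : D.ι) (e : ℕ)
    {g : ℂ[X]} (hg : ((X - C m) ^ e * g).degree < ((D.k j + 1 : ℕ) : WithBot ℕ)) :
    pr ((w 0).2.1 j) ((X - C m) ^ e * g) = pr ((w e).2.1 j) g := by
  induction e generalizing g with
  | zero => simp
  | succ e ih =>
    rw [pow_succ, mul_assoc] at hg ⊢
    rw [ih hg]
    refine (h e).snd j ?_
    rcases eq_or_ne g 0 with h0 | h0
    · rw [h0, degree_zero]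
      exact WithBot.bot_lt_coe _
    · rw [degree_mul, degree_mul, degree_pow, degree_X_sub_C, degree_eq_natDegree h0] at hg
      rw [degree_eq_natDegree h0]
      rw [nsmul_eq_mul] at hg
      norm_cast at *
      omega

/-! ### The second part -/

/-- Coefficient vectors. -/
noncomputable def ev (i : D.ι) (r : ℕ) : E (D.k i + 1) := res _ (lcoeff ℂ r)

theorem pr_ev (i : D.ι) (r : ℕ) {g : ℂ[X]} (hg : g.degree < (D.k i + 1 : ℕ)) :
    pr (ev i r) g = g.coeff r := by
  rw [ev, pr_res _ hg, lcoeff_apply]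

theorem ev_eq_zero (i : D.ι) {r : ℕ} (hr : D.k i < r) : ev i r = 0 := by
  ext s
  show (X ^ (s : ℕ) : ℂ[X]).coeff r = 0
  rw [coeff_X_pow, if_neg]
  omega

theorem rel_ev (i : D.ι) (r : ℕ) : Rel 0 (ιL i (ev i (r + 1))) (ιL i (ev i r)) := by
  intro x
  have h1 := degree_pol_lt (x.1 i)
  have h2 : (pol (x.1 i)).degree < (D.k i + 1 : ℕ) := lt_trans h1 (by exact_mod_cast Nat.lt_succ_self _)
  rw [form_ιL_right, form_ιL_right, one_mul, C_0, sub_zero, pr_ev _ _ h2,
    pr_ev _ _ (degree_mul_lt_succ (by simp) h1), coeff_X_mul]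

theorem rel_ev_zero (i : D.ι) : Rel 0 (ιL i (ev i 0)) 0 := by
  intro x
  have h1 := degree_pol_lt (x.1 i)
  rw [form_ιL_right, C_0, sub_zero, pr_ev _ _ (degree_mul_lt_succ (by simp) h1), map_zero]
  simp

theorem single_eq_ev (i : D.ι) (r : Fin (D.k i + 1)) : Pi.single r (1 : ℂ) = ev i r := by
  ext s
  show _ = (X ^ (s : ℕ) : ℂ[X]).coeff r
  rw [coeff_X_pow, Pi.single_apply]
  congr 1
  rw [eq_comm, Fin.ext_iff]
  exact propext (eq_comm)

theorem ext_ev {i : D.ι} {l l' : E (D.k i + 1) →ₗ[ℂ] ℂ} (h : ∀ r, l (ev i r) = l' (ev i r)) :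
    l = l' := by
  refine LinearMap.pi_ext' fun r => LinearMap.ext_ring ?_
  show l (Pi.single r 1) = l' (Pi.single r 1)
  rw [single_eq_ev]
  exact h r

section

variable {φ : Sp D ≃ₗ[ℂ] Sp D} (hφ : Aut φ)
include hφ

theorem rel_map_ev (i : D.ι) (r : ℕ) : Rel 0 (φ (ιL i (ev i (r + 1)))) (φ (ιL i (ev i r))) :=
  (rel_ev i r).map hφ

theorem rel_map_ev_zero (i : D.ι) : Rel 0 (φ (ιL i (ev i 0))) 0 := by
  have := (rel_ev_zero i).map hφ
  rwa [map_zero] at this

theorem map_ev_fst (i j : D.ι) (r : ℕ) : pol ((φ (ιL i (ev i r))).1 j) = 0 := by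
  have h : ∀ N r, D.k i < r + N → pol ((φ (ιL i (ev i r))).1 j) = 0 := by
    intro N
    induction N with
    | zero =>
      intro r hr
      rw [ev_eq_zero i (show D.k i < r from hr), map_zero, map_zero]
      simp
    | succ N ih =>
      intro r hr
      rw [← (rel_map_ev hφ i r).fst j, ih (r + 1) (by omega), mul_zero]
  exact h (D.k i + 1) r (by omega)

theorem map_ev_thd (i : D.ι) (c : D.γ) (r : ℕ) : pol ((φ (ιL i (ev i r))).2.2 c) = 0 := by
  have h : ∀ N r, D.k i < r + N → pol ((φ (ιL i (ev i r))).2.2 c) = 0 := by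
    intro N
    induction N with
    | zero =>
      intro r hr
      rw [ev_eq_zero i (show D.k i < r from hr), map_zero, map_zero]
      simp
    | succ N ih =>
      intro r hr
      have h1 := (rel_map_ev hφ i r).thd c
      rw [ih (r + 1) (by omega), mul_zero, zero_sub, dvd_neg] at h1
      by_contra h0
      have h2 := degree_le_of_dvd h1 h0
      rw [degree_X_pow] at h2
      exact absurd (degree_pol_lt ((φ (ιL i (ev i r))).2.2 c)) (not_lt.2 h2)
  exact h (D.k i + 1) r (by omega)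

theorem map_ιL_fst (i j : D.ι) (y : E (D.k i + 1)) : (φ (ιL i y)).1 j = 0 := by
  have h : cF j ∘ₗ φ.toLinearMap ∘ₗ ιL i = 0 := by
    refine LinearMap.pi_ext' fun r => LinearMap.ext_ring ?_
    show (φ (ιL i (Pi.single r 1))).1 j = 0
    rw [single_eq_ev]
    exact pol_eq_zero (map_ev_fst hφ i j r)
  exact LinearMap.congr_fun h y

theorem map_ιL_thd (i : D.ι) (c : D.γ) (y : E (D.k i + 1)) : (φ (ιL i y)).2.2 c = 0 := by
  have h : cM c ∘ₗ φ.toLinearMap ∘ₗ ιL i = 0 := by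
    refine LinearMap.pi_ext' fun r => LinearMap.ext_ring ?_
    show (φ (ιL i (Pi.single r 1))).2.2 c = 0
    rw [single_eq_ev]
    exact pol_eq_zero (map_ev_thd hφ i c r)
  exact LinearMap.congr_fun h y

/-- On the second part an automorphism acts by multiplication with polynomials. -/
theorem exists_mult (i j : D.ι) : ∃ c : ℂ[X], c.natDegree ≤ D.k i - D.k j ∧
    (D.k i < D.k j → c = 0) ∧ ∀ y (g : ℂ[X]), g.degree < (D.k j + 1 : ℕ) →
      pr ((φ (ιL i y)).2.1 j) g = pr y (c * g) := by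
  set b : ℕ → ℂ := fun r => pr ((φ (ιL i (ev i r))).2.1 j) 1 with hb
  set p : ℂ[X] := ∑ r ∈ Finset.range (D.k i + 1), monomial r (b r) with hp
  have hpc : ∀ r, p.coeff r = b r := by
    intro r
    rw [hp, finsetSum_coeff]
    simp only [coeff_monomial]
    rw [Finset.sum_ite_eq']
    split_ifs with h
    · rfl
    · rw [Finset.mem_range, not_lt] at h
      rw [hb]
      show 0 = pr ((φ (ιL i (ev i r))).2.1 j) 1
      rw [ev_eq_zero i (by omega), map_zero, map_zero]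
      simp
  have key : ∀ s, s ≤ D.k j → ∀ r, pr ((φ (ιL i (ev i r))).2.1 j) (X ^ s) =
      (p * X ^ s).coeff r := by
    intro s
    induction s with
    | zero =>
      intro _ r
      rw [pow_zero, mul_one, hpc]
    | succ s ih =>
      intro hs r
      have hd : (X ^ s : ℂ[X]).degree < D.k j := by
        rw [degree_X_pow]
        exact_mod_cast hs
      have hx : (X ^ (s + 1) : ℂ[X]) = (X - C 0) * X ^ s := by
        rw [C_0, sub_zero, pow_succ']
      cases r with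
      | zero =>
        rw [hx, (rel_map_ev_zero hφ i).snd j hd, C_0, sub_zero, mul_left_comm, coeff_X_mul_zero]
        simp
      | succ r =>
        rw [hx, (rel_map_ev hφ i r).snd j hd, ih (by omega), C_0, sub_zero, mul_left_comm,
          coeff_X_mul]
  have hdeg : ∀ r, D.k i - D.k j < r → p.coeff r = 0 := by
    intro r hr
    rcases Nat.lt_or_ge (D.k i) r with h | h
    · rw [hpc, hb]
      show pr ((φ (ιL i (ev i r))).2.1 j) 1 = 0
      rw [ev_eq_zero i (by omega), map_zero, map_zero]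
      simp
    · have h1 := key (D.k i + 1 - r) (by omega) (D.k i + 1)
      have h3 : D.k i + 1 - (D.k i + 1 - r) = r := by omega
      rw [ev_eq_zero i (by omega), map_zero, map_zero, coeff_mul_X_pow', if_pos (by omega),
        h3] at h1
      rw [← h1]
      simp
  have hzero : D.k i < D.k j → p = 0 := by
    intro h
    ext r
    rw [coeff_zero]
    rcases Nat.eq_zero_or_pos r with h0 | h0
    · subst h0
      have h1 := key (D.k i + 1) (by omega) (D.k i + 1)
      rw [ev_eq_zero i (by omega), map_zero, map_zero, coeff_mul_X_pow', if_pos le_rfl,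
        Nat.sub_self] at h1
      rw [← h1]
      simp
    · exact hdeg r (by omega)
  refine ⟨p, natDegree_le_iff_coeff_eq_zero.2 hdeg, hzero, fun y g hg => ?_⟩
  · have h1 : (pr (n := D.k j + 1)).flip g ∘ₗ (LinearMap.proj j ∘ₗ LinearMap.fst ℂ _ _ ∘ₗ
        LinearMap.snd ℂ _ _) ∘ₗ φ.toLinearMap ∘ₗ ιL i = (pr (n := D.k i + 1)).flip (p * g) := by
      refine ext_ev fun r => ?_
      show pr ((φ (ιL i (ev i r))).2.1 j) g = pr (ev i r) (p * g)
      have h2 : (p * g).degree < (D.k i + 1 : ℕ) := by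
        rcases Nat.lt_or_ge (D.k i) (D.k j) with h | h
        · rw [hzero h, zero_mul, degree_zero]
          exact WithBot.bot_lt_coe _
        · refine degree_mul_lt (a := D.k j + 1) (by omega) ?_ hg
          refine (natDegree_le_iff_coeff_eq_zero.2 hdeg).trans ?_
          omega
      rw [pr_ev _ _ h2]
      have h3 := pr_res (pr ((φ (ιL i (ev i r))).2.1 j)) hg
      have h4 := pr_res (lcoeff ℂ r ∘ₗ LinearMap.mulLeft ℂ p) hg
      rw [LinearMap.comp_apply, LinearMap.mulLeft_apply, lcoeff_apply] at h4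
      rw [← h3, ← h4]
      congr 2
      ext s
      exact key s (by omega) r
    exact LinearMap.congr_fun h1 y

end

end Pool.Agent.Lib.MP_8c499d_al
end

section

/-!
Admissible families give invariant subspaces.
-/

set_option autoImplicit false
set_option linter.unusedSimpArgs false

open Polynomial

namespace Pool.Agent.Lib.MP_8c499d_al

variable {D : Dat}

section

variable {φ : Sp D ≃ₗ[ℂ] Sp D} (hφ : Aut φ)
include hφ

/-- On the first part, modulo the rest, an automorphism acts by multiplication with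
polynomials. -/
theorem exists_mult_fst (i j : D.ι) : ∃ c : ℂ[X], c.natDegree ≤ D.k j - D.k i ∧
    (D.k j < D.k i → c = 0) ∧ ∀ x, pol ((φ (ιF i x)).1 j) = c * pol x := by
  obtain ⟨c, h1, h2, h3⟩ := exists_mult hφ.symm j i
  refine ⟨c, h1, h2, fun x => ?_⟩
  have hx : (pol x).degree < (D.k i + 1 : ℕ) :=
    lt_trans (degree_pol_lt _) (by exact_mod_cast Nat.lt_succ_self _)
  refine eq_of_pr' (n := D.k j + 1) ?_ ?_ fun y => ?_
  · exact lt_trans (degree_pol_lt _) (by exact_mod_cast Nat.lt_succ_self _)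
  · rcases Nat.lt_or_ge (D.k j) (D.k i) with h | h
    · rw [h2 h, zero_mul, degree_zero]
      exact WithBot.bot_lt_coe _
    · refine degree_mul_lt (a := D.k i + 1) (by omega) (h1.trans ?_) hx
      omega
  · have h4 := hφ.form_left (s := 1) (by simp) (ιF i x) (ιL j y)
    rw [form_ιL_right, form_ιF_left, one_mul, one_mul, h3 y _ hx] at h4
    exact h4

omit hφ in
theorem rel_ιM (c : D.γ) (m : E (D.ν c)) :
    Rel (D.μ c) (ιM c m) (ιM c (tr _ (X * pol m))) := by
  intro x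
  have h7 : taylor (D.μ c) (X - C (D.μ c)) = X := by
    rw [map_sub, taylor_X, taylor_C, add_sub_cancel_right]
  rw [form_ιM_right, form_ιM_right, h7, taylor_one, C_1, one_mul]
  rcases eq_or_ne (D.ν c) 0 with h | h
  · rw [pol_size_zero h m, pol_size_zero h]
    simp
  · rw [coeff_pol_tr_mul _ _ h]

/-- The chain of a vector in the Jordan part. -/
noncomputable def chn (c : D.γ) (p : ℂ[X]) (l : ℕ) : Sp D := ιM c (tr _ (X ^ l * p))

omit hφ in
theorem X_pow_dvd_sub_pol_tr {n : ℕ} (g : ℂ[X]) : X ^ n ∣ pol (tr n g) - g := by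
  rw [X_pow_dvd_iff]
  intro d hd
  rw [coeff_sub, coeff_pol_lt _ hd, tr_apply, sub_self]

omit hφ in
theorem tr_eq_of_dvd {n : ℕ} {g g' : ℂ[X]} (h : X ^ n ∣ g - g') : tr n g = tr n g' := by
  obtain ⟨q, hq⟩ := h
  rw [← sub_eq_zero, ← map_sub, hq, tr_X_pow_mul]

omit hφ in
theorem rel_chn (c : D.γ) (p : ℂ[X]) (l : ℕ) : Rel (D.μ c) (chn c p l) (chn c p (l + 1)) := by
  have h := rel_ιM c (tr _ (X ^ l * p))
  have h1 : tr (D.ν c) (X * pol (tr (D.ν c) (X ^ l * p))) = tr (D.ν c) (X ^ (l + 1) * p) := by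
    refine tr_eq_of_dvd ?_
    have := Dvd.dvd.mul_left (X_pow_dvd_sub_pol_tr (n := D.ν c) (X ^ l * p)) X
    convert this using 1
    ring
  rw [h1] at h
  exact h

omit hφ in
theorem chn_zero (c : D.γ) (m : E (D.ν c)) : chn c (pol m) 0 = ιM c m := by
  rw [chn, pow_zero, one_mul, tr_pol]

omit hφ in
theorem chn_eq_zero (c : D.γ) {p : ℂ[X]} {e : ℕ} (h : X ^ D.ν c ∣ X ^ e * p) : chn c p e = 0 := by
  obtain ⟨q, hq⟩ := h
  rw [chn, hq, tr_X_pow_mul, map_zero]

omit hφ in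
theorem pol_eq_zero_of_dvd {n : ℕ} {x : E n} (h : X ^ n ∣ pol x) : x = 0 := by
  refine pol_eq_zero ?_
  by_contra h0
  have h2 := degree_le_of_dvd h h0
  rw [degree_X_pow] at h2
  exact absurd (degree_pol_lt x) (not_lt.2 h2)

theorem map_ιM_fst (c : D.γ) (m : E (D.ν c)) (j : D.ι) : (φ (ιM c m)).1 j = 0 := by
  have h := chain_fst (w := fun l => φ (chn c (pol m) l)) (fun l => (rel_chn c _ l).map hφ) j
    (D.ν c)
  rw [chn_zero, chn_eq_zero c (dvd_mul_right _ _), map_zero] at h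
  have h1 : pol ((0 : Sp D).1 j) = 0 := by simp
  rw [h1] at h
  exact pol_eq_zero ((mul_eq_zero.1 h).resolve_left (pow_ne_zero _ (X_sub_C_ne_zero _)))

theorem map_ιM_snd (c : D.γ) (m : E (D.ν c)) (j : D.ι) {e : ℕ} (he : X ^ D.ν c ∣ X ^ e * pol m)
    {g : ℂ[X]} (hg : ((X - C (D.μ c)) ^ e * g).degree < ((D.k j + 1 : ℕ) : WithBot ℕ)) :
    pr ((φ (ιM c m)).2.1 j) ((X - C (D.μ c)) ^ e * g) = 0 := by
  have h := chain_snd (w := fun l => φ (chn c (pol m) l)) (fun l => (rel_chn c _ l).map hφ) j e hg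
  rw [chn_zero, chn_eq_zero c he, map_zero] at h
  rw [h]
  simp

theorem map_ιM_thd_ne (c : D.γ) (m : E (D.ν c)) {c' : D.γ} (hc : D.μ c' ≠ D.μ c) :
    (φ (ιM c m)).2.2 c' = 0 := by
  have h := chain_thd (w := fun l => φ (chn c (pol m) l)) (fun l => (rel_chn c _ l).map hφ) c'
    (D.ν c)
  rw [chn_zero, chn_eq_zero c (dvd_mul_right _ _), map_zero] at h
  have h1 : pol ((0 : Sp D).2.2 c') = 0 := by simp
  rw [h1, sub_zero] at h
  refine pol_eq_zero_of_dvd (IsCoprime.dvd_of_dvd_mul_left ?_ h)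
  refine IsCoprime.pow ?_
  have h2 : (C (D.μ c' - D.μ c) : ℂ[X]) = (X + C (D.μ c' - D.μ c)) - X := by ring
  refine ⟨- C (D.μ c' - D.μ c)⁻¹, C (D.μ c' - D.μ c)⁻¹, ?_⟩
  have h3 : C (D.μ c' - D.μ c)⁻¹ * C (D.μ c' - D.μ c) = (1 : ℂ[X]) := by
    rw [← C_mul, inv_mul_cancel₀ (sub_ne_zero.2 hc), C_1]
  linear_combination h3

theorem map_ιM_thd_eq (c : D.γ) {m : E (D.ν c)} {a b : ℕ} (ha : X ^ a ∣ pol m) {c' : D.γ}
    (hc : D.μ c' = D.μ c) (hb : b ≤ D.ν c') (hb' : b ≤ a + (D.ν c' - D.ν c)) :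
    X ^ b ∣ pol ((φ (ιM c m)).2.2 c') := by
  obtain ⟨q, hq⟩ := ha
  have h1 := chain_thd (w := fun l => φ (chn c q l)) (fun l => (rel_chn c _ l).map hφ) c'
    (D.ν c)
  have h2 := chain_thd (w := fun l => φ (chn c q l)) (fun l => (rel_chn c _ l).map hφ) c' a
  have h3 : chn c q a = ιM c m := by rw [chn, ← hq, tr_pol]
  rw [chn_eq_zero c (dvd_mul_right _ _), map_zero] at h1
  have h4 : pol ((0 : Sp D).2.2 c') = 0 := by simp
  rw [h4, sub_zero, hc, sub_self, C_0, add_zero] at h1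
  rw [h3, hc, sub_self, C_0, add_zero] at h2
  set p0 := pol ((φ (chn c q 0)).2.2 c')
  have h5 : X ^ (D.ν c' - D.ν c) ∣ p0 := by
    rcases Nat.lt_or_ge (D.ν c') (D.ν c) with h | h
    · have : D.ν c' - D.ν c = 0 := by omega
      rw [this, pow_zero]
      exact one_dvd _
    · have h6 : D.ν c' = D.ν c + (D.ν c' - D.ν c) := by omega
      rw [h6, pow_add] at h1
      exact (mul_dvd_mul_iff_left (pow_ne_zero _ X_ne_zero)).1 h1
  have h6 : X ^ b ∣ X ^ a * p0 := by
    refine (pow_dvd_pow X hb').trans ?_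
    rw [pow_add]
    exact mul_dvd_mul_left _ h5
  have h7 := dvd_sub h6 ((pow_dvd_pow X hb).trans h2)
  rwa [sub_sub_cancel] at h7

theorem map_ιF_thd (i : D.ι) {x : E (D.k i)} {c : D.γ} {e b : ℕ}
    (he : (X - C (D.μ c)) ^ e ∣ pol x) (hb : b ≤ e) (hb' : b ≤ D.ν c) :
    X ^ b ∣ pol ((φ (ιF i x)).2.2 c) := by
  rw [X_pow_dvd_iff]
  intro d hd
  obtain ⟨g, hg⟩ := he
  have h1 := hφ.form_left (s := 1) (by simp) (ιF i x)
    (ιM (D.st c) (tr _ (X ^ (D.ν c - 1 - d))))
  have h2 : pol (tr (D.ν (D.st c)) (X ^ (D.ν c - 1 - d))) = X ^ (D.ν c - 1 - d) := by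
    refine pol_tr ?_
    rw [degree_X_pow, D.ν_st]
    exact_mod_cast (by omega)
  have h3 : X ^ D.ν (D.st c) ∣ X ^ e * pol (tr (D.ν (D.st c)) (X ^ (D.ν c - 1 - d))) := by
    rw [h2, D.ν_st, ← pow_add]
    exact pow_dvd_pow _ (by omega)
  have h4 : pol ((φ (ιF i x)).2.2 (D.st (D.st c))) = pol ((φ (ιF i x)).2.2 c) := by rw [D.st_st]
  have h5 : D.ν (D.st c) - 1 = D.ν c - 1 := by rw [D.ν_st]
  have h6 : (pol x).degree < ((D.k i + 1 : ℕ) : WithBot ℕ) :=
    lt_trans (degree_pol_lt _) (by exact_mod_cast Nat.lt_succ_self _)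
  have h7 := map_ιM_snd hφ.symm (D.st c) (tr _ (X ^ (D.ν c - 1 - d))) i h3 (g := g)
    (by rw [D.μ_st, ← hg]; exact h6)
  rw [D.μ_st, ← hg] at h7
  rw [form_ιM_right, form_ιF_left, one_mul, h7, h4, h5, h2, taylor_one, C_1, one_mul,
    neg_eq_zero] at h1
  have h8 := (mul_eq_zero.1 h1).resolve_left (ε_ne_zero _)
  rw [coeff_X_pow_mul', if_pos (by omega)] at h8
  have h9 : D.ν c - 1 - (D.ν c - 1 - d) = d := by omega
  rwa [h9] at h8

end

/-- Admissible families. -/
structure Adm (D : Dat) (F Z : ℕ → Submodule ℂ ℂ[X]) (a : ℂ → ℕ → ℕ) : Prop where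
  F_deg : ∀ i, ∀ f ∈ F (D.k i), f.degree < D.k i
  Z_deg : ∀ i, ∀ g ∈ Z (D.k i), g.degree < (D.k i + 1 : ℕ)
  F_mul : ∀ i j, D.k i ≤ D.k j → ∀ g : ℂ[X], g.natDegree ≤ D.k j - D.k i → ∀ f ∈ F (D.k i),
    g * f ∈ F (D.k j)
  Z_mul : ∀ i j, D.k i ≤ D.k j → ∀ g : ℂ[X], g.natDegree ≤ D.k j - D.k i → ∀ f ∈ Z (D.k i),
    g * f ∈ Z (D.k j)
  a_le : ∀ c, a (D.μ c) (D.ν c) ≤ D.ν c
  a_mono : ∀ c c', D.μ c = D.μ c' → D.ν c ≤ D.ν c' → a (D.μ c) (D.ν c) ≤ a (D.μ c') (D.ν c')
  a_step : ∀ c c', D.μ c = D.μ c' → D.ν c ≤ D.ν c' →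
    a (D.μ c') (D.ν c') ≤ a (D.μ c) (D.ν c) + (D.ν c' - D.ν c)
  F_Z : ∀ i j, F (D.k i) ≠ ⊥ → Z (D.k j) = ⊥
  F_dvd : ∀ i c, ∀ f ∈ F (D.k i), (X - C (D.μ c)) ^ a (D.μ c) (D.ν c) ∣ f
  Z_dvd : ∀ i c, ∀ g ∈ Z (D.k i), (X - C (D.μ c)) ^ (D.ν c - a (D.μ c) (D.ν c)) ∣ g

/-- Admissible families give invariant subspaces. -/
theorem Adm.map_mem {F Z : ℕ → Submodule ℂ ℂ[X]} {a : ℂ → ℕ → ℕ} (h : Adm D F Z a)
    {φ : Sp D ≃ₗ[ℂ] Sp D} (hφ : Aut φ) {v : Sp D} (hv : v ∈ U D F Z a) : φ v ∈ U D F Z a := by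
  obtain ⟨h1, h2, h3⟩ := hv
  rw [sum_ι v, map_add, map_add, map_sum, map_sum, map_sum]
  refine add_mem (add_mem (sum_mem fun i _ => ?_) (sum_mem fun i _ => ?_))
    (sum_mem fun c _ => ?_)
  · by_cases hx : v.1 i = 0
    · rw [hx, map_zero, map_zero]
      exact zero_mem _
    refine ⟨fun j => ?_, fun j g hg => ?_, fun c => ?_⟩
    · obtain ⟨p, hp1, hp2, hp3⟩ := exists_mult_fst hφ i j
      rw [hp3]
      rcases Nat.lt_or_ge (D.k j) (D.k i) with h4 | h4
      · rw [hp2 h4, zero_mul]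
        exact zero_mem _
      · exact h.F_mul i j h4 p hp1 _ (h1 i)
    · have h4 : F (D.k i) ≠ ⊥ := by
        intro h5
        have h6 := h1 i
        rw [h5, Submodule.mem_bot] at h6
        exact hx (pol_eq_zero h6)
      rw [h.F_Z i j h4, Submodule.mem_bot] at hg
      rw [hg, map_zero]
    · exact map_ιF_thd hφ i (h.F_dvd i c _ (h1 i)) le_rfl (h.a_le c)
  · refine ⟨fun j => ?_, fun j g hg => ?_, fun c => ?_⟩
    · rw [map_ιL_fst hφ, map_zero]
      exact zero_mem _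
    · obtain ⟨p, hp1, hp2, hp3⟩ := exists_mult hφ i j
      rw [hp3 _ _ (h.Z_deg j g hg)]
      rcases Nat.lt_or_ge (D.k i) (D.k j) with h4 | h4
      · rw [hp2 h4, zero_mul, map_zero]
      · exact h2 i _ (h.Z_mul j i h4 p hp1 _ hg)
    · rw [map_ιL_thd hφ, map_zero]
      exact dvd_zero _
  · refine ⟨fun j => ?_, fun j g hg => ?_, fun c' => ?_⟩
    · rw [map_ιM_fst hφ, map_zero]
      exact zero_mem _
    · obtain ⟨g', rfl⟩ := h.Z_dvd j c g hg
      refine map_ιM_snd hφ c _ j ?_ (h.Z_deg j _ hg)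
      have h4 : D.ν c = (D.ν c - a (D.μ c) (D.ν c)) + a (D.μ c) (D.ν c) := by
        have := h.a_le c
        omega
      conv_lhs => rw [h4, pow_add]
      exact mul_dvd_mul_left _ (h3 c)
    · by_cases hc : D.μ c' = D.μ c
      · refine map_ιM_thd_eq hφ c (h3 c) hc (h.a_le c') ?_
        rcases Nat.le_total (D.ν c) (D.ν c') with h4 | h4
        · exact h.a_step c c' hc.symm h4
        · exact (h.a_mono c' c hc h4).trans (Nat.le_add_right _ _)
      · rw [map_ιM_thd_ne hφ c _ hc, map_zero]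
        exact dvd_zero _

end Pool.Agent.Lib.MP_8c499d_al
end
end
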