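import Mathlib
import Pool.Agent.Lib.MP_8c499d_al.Inv
import Pool.Agent.Lib.MP_8c499d_al.Defs

section

/-!
Orbits with the same tangent space coincide.
-/

set_option autoImplicit false

open Topology

namespace Pool.Agent.Lib.MP_8c499d_al

variable {V : Type*} [NormedAddCommGroup V] [NormedSpace ℂ V] [FiniteDimensional ℂ V]

/-- A group of linear maps which contains the Cayley transforms of the elements of `g`. -/
structure Grp (P : (V ≃ₗ[ℂ] V) → Prop) (g : Submodule ℂ (V →ₗ[ℂ] V)) : Prop where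
  refl : P (LinearEquiv.refl ℂ V)
  symm : ∀ φ, P φ → P φ.symm
  trans : ∀ φ ψ, P φ → P ψ → P (φ.trans ψ)
  cayley : ∀ N ∈ g, ∀ e e' : V ≃ₗ[ℂ] V, (∀ v, e v = v - N v) → (∀ v, e' v = v + N v) →
    P (e.symm.trans e')

omit [FiniteDimensional ℂ V] in
theorem injective_of_isUnit {A : V →L[ℂ] V} (h : IsUnit A) : Function.Injective A := by
  obtain ⟨u, rfl⟩ := h
  intro x y hxy
  have h1 : ∀ z, (↑u⁻¹ : V →L[ℂ] V) ((u : V →L[ℂ] V) z) = z := by
    intro z
    exact DFunLike.congr_fun u.inv_mul z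
  rw [← h1 x, ← h1 y]
  exact congrArg _ hxy

theorem local_orbit {P : (V ≃ₗ[ℂ] V) → Prop} {g : Submodule ℂ (V →ₗ[ℂ] V)} (hP : Grp P g)
    {S : Submodule ℂ V} (hS : ∀ N ∈ g, ∀ v ∈ S, N v ∈ S) (w : S)
    (hw : ∀ s ∈ S, ∃ N ∈ g, N (w : V) = s) :
    ∀ᶠ z : S in 𝓝 w, ∃ φ, P φ ∧ φ (w : V) = z := by
  -- evaluation at `w`
  let ev : g →ₗ[ℂ] S := LinearMap.mk₂ ℂ (fun (N : g) (z : S) => (⟨N.1 z, hS N.1 N.2 z z.2⟩ : S))
    (fun _ _ _ => rfl) (fun _ _ _ => rfl)
    (fun N z z' => Subtype.ext (map_add N.1 (z : V) z'))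
    (fun a N z => Subtype.ext (map_smul N.1 a (z : V))) |>.flip w
  have hev : Function.Surjective ev := by
    rintro ⟨s, hs⟩
    obtain ⟨N, hN, h⟩ := hw s hs
    exact ⟨⟨N, hN⟩, Subtype.ext h⟩
  obtain ⟨L, hL⟩ := LinearMap.exists_rightInverse_of_surjective ev (LinearMap.range_eq_top.2 hev)
  have hL' : ∀ s : S, ((L s : g) : V →ₗ[ℂ] V) w = s := fun s =>
    congrArg Subtype.val (LinearMap.congr_fun hL s)
  -- the bilinear map
  let B0 : S →ₗ[ℂ] S →ₗ[ℂ] S := LinearMap.mk₂ ℂ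
    (fun z s => (⟨(L s : V →ₗ[ℂ] V) z, hS _ (L s).2 z z.2⟩ : S))
    (fun z z' s => Subtype.ext (map_add _ (z : V) z'))
    (fun a z s => Subtype.ext (map_smul _ a (z : V)))
    (fun z s s' => Subtype.ext (by
      show ((L (s + s') : g) : V →ₗ[ℂ] V) z = (L s : V →ₗ[ℂ] V) z + (L s' : V →ₗ[ℂ] V) z
      rw [map_add]
      rfl))
    (fun a z s => Subtype.ext (by
      show ((L (a • s) : g) : V →ₗ[ℂ] V) z = a • (L s : V →ₗ[ℂ] V) z
      rw [map_smul]
      rfl))
  have hB0 : ∀ z s, (B0 z s : V) = (L s : V →ₗ[ℂ] V) z := fun z s => rfl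
  let B : S →ₗ[ℂ] (S →L[ℂ] S) :=
    (LinearMap.toContinuousLinearMap : (S →ₗ[ℂ] S) ≃ₗ[ℂ] (S →L[ℂ] S)).toLinearMap ∘ₗ B0
  have hB : ∀ z s, B z s = B0 z s := fun z s => rfl
  have hBc : Continuous B := LinearMap.continuous_of_finiteDimensional B
  have hBw : B w = 1 := by
    ext s
    rw [hB, hB0, hL']
    rfl
  let A : S → (S →L[ℂ] S) := fun z => B ((1 / 2 : ℂ) • (z + w))
  have hAw : A w = 1 := by
    show B ((1 / 2 : ℂ) • (w + w)) = 1
    have : (1 / 2 : ℂ) • (w + w) = w := by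
      rw [← two_smul ℂ w, smul_smul]
      norm_num
    rw [this, hBw]
  have hAc : Continuous A := hBc.comp (by fun_prop)
  let G : S → S := fun z => Ring.inverse (A z) ((1 / 2 : ℂ) • (z - w))
  have hGw : G w = 0 := by
    show Ring.inverse (A w) ((1 / 2 : ℂ) • (w - w)) = 0
    rw [sub_self, smul_zero, map_zero]
  have hGc : ContinuousAt G w := by
    have h1 : ContinuousAt (fun z => Ring.inverse (A z)) w := by
      refine ContinuousAt.comp (f := A) (g := Ring.inverse) ?_ hAc.continuousAt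
      rw [hAw]
      have h0 := NormedRing.inverse_continuousAt (R := S →L[ℂ] S) 1
      rwa [Units.val_one] at h0
    exact h1.clm_apply (by fun_prop)
  let M : S →ₗ[ℂ] (V →L[ℂ] V) :=
    (LinearMap.toContinuousLinearMap : (V →ₗ[ℂ] V) ≃ₗ[ℂ] (V →L[ℂ] V)).toLinearMap ∘ₗ
      g.subtype ∘ₗ L
  have hM : ∀ s v, M s v = (L s : V →ₗ[ℂ] V) v := fun s v => rfl
  have hMc : ContinuousAt (fun z => M (G z)) w :=
    (LinearMap.continuous_of_finiteDimensional M).continuousAt.comp hGc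
  have hMw : M (G w) = 0 := by rw [hGw, map_zero]
  have e1 : ∀ᶠ z in 𝓝 w, IsUnit (A z) := by
    have := Units.isOpen.mem_nhds (x := A w) (by rw [hAw]; exact isUnit_one)
    exact hAc.continuousAt this
  have e2 : ∀ᶠ z in 𝓝 w, IsUnit (1 - M (G z)) := by
    have h1 : ContinuousAt (fun z => 1 - M (G z)) w := continuousAt_const.sub hMc
    have := Units.isOpen.mem_nhds (x := 1 - M (G w)) (by
      show IsUnit (1 - M (G w))
      rw [hMw, sub_zero]
      exact isUnit_one)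
    exact h1 this
  have e3 : ∀ᶠ z in 𝓝 w, IsUnit (1 + M (G z)) := by
    have h1 : ContinuousAt (fun z => 1 + M (G z)) w := continuousAt_const.add hMc
    have := Units.isOpen.mem_nhds (x := 1 + M (G w)) (by
      show IsUnit (1 + M (G w))
      rw [hMw, add_zero]
      exact isUnit_one)
    exact h1 this
  filter_upwards [e1, e2, e3] with z h1 h2 h3
  set N : V →ₗ[ℂ] V := (L (G z) : V →ₗ[ℂ] V) with hN
  have i1 : Function.Injective (LinearMap.id - N : V →ₗ[ℂ] V) := injective_of_isUnit h2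
  have i2 : Function.Injective (LinearMap.id + N : V →ₗ[ℂ] V) := injective_of_isUnit h3
  set e := LinearEquiv.ofInjectiveEndo _ i1
  set e' := LinearEquiv.ofInjectiveEndo _ i2
  have he : ∀ v, e v = v - N v := fun v => rfl
  have he' : ∀ v, e' v = v + N v := fun v => rfl
  refine ⟨e.symm.trans e', hP.cayley N (L (G z)).2 e e' he he', ?_⟩
  have h4 : N ((1 / 2 : ℂ) • ((z : V) + w)) = (1 / 2 : ℂ) • ((z : V) - w) := by
    have h5 : A z (G z) = (1 / 2 : ℂ) • (z - w) := by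
      have h6 : (A z * Ring.inverse (A z)) ((1 / 2 : ℂ) • (z - w)) = (1 / 2 : ℂ) • (z - w) := by
        rw [Ring.mul_inverse_cancel _ h1]
        rfl
      exact h6
    have h7 := congrArg Subtype.val h5
    exact h7
  have h5 : e ((1 / 2 : ℂ) • ((z : V) + w)) = w := by
    rw [he, h4, ← smul_sub]
    have : (z : V) + w - (z - w) = (2 : ℂ) • (w : V) := by rw [two_smul]; abel
    rw [this, smul_smul]
    norm_num
  have h6 : e.symm (w : V) = (1 / 2 : ℂ) • ((z : V) + w) := by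
    rw [e.symm_apply_eq, h5]
  show e' (e.symm w) = z
  rw [h6, he', h4, ← smul_add]
  have : (z : V) + w + (z - w) = (2 : ℂ) • (z : V) := by rw [two_smul]; abel
  rw [this, smul_smul]
  norm_num

/-- Only finitely many points of a line through a generic point are not generic. -/
theorem finite_bad {g : Submodule ℂ (V →ₗ[ℂ] V)} {S : Submodule ℂ V}
    (hS : ∀ N ∈ g, ∀ v ∈ S, N v ∈ S) (w d : S) (hw : ∀ s ∈ S, ∃ N ∈ g, N (w : V) = s) :
    {z : ℂ | ¬ ∀ s ∈ S, ∃ N ∈ g, N ((w : V) + z • (d : V)) = s}.Finite := by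
  let ev : g →ₗ[ℂ] S := LinearMap.mk₂ ℂ (fun (N : g) (z : S) => (⟨N.1 z, hS N.1 N.2 z z.2⟩ : S))
    (fun _ _ _ => rfl) (fun _ _ _ => rfl)
    (fun N z z' => Subtype.ext (map_add N.1 (z : V) z'))
    (fun a N z => Subtype.ext (map_smul N.1 a (z : V))) |>.flip w
  have hev : Function.Surjective ev := by
    rintro ⟨s, hs⟩
    obtain ⟨N, hN, h⟩ := hw s hs
    exact ⟨⟨N, hN⟩, Subtype.ext h⟩
  obtain ⟨L, hL⟩ := LinearMap.exists_rightInverse_of_surjective ev (LinearMap.range_eq_top.2 hev)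
  have hL' : ∀ s : S, ((L s : g) : V →ₗ[ℂ] V) w = s := fun s =>
    congrArg Subtype.val (LinearMap.congr_fun hL s)
  let Bd : S →ₗ[ℂ] S :=
    { toFun := fun s => (⟨(L s : V →ₗ[ℂ] V) d, hS _ (L s).2 d d.2⟩ : S)
      map_add' := fun s s' => Subtype.ext (by
        show ((L (s + s') : g) : V →ₗ[ℂ] V) d = (L s : V →ₗ[ℂ] V) d + (L s' : V →ₗ[ℂ] V) d
        rw [map_add]
        rfl)
      map_smul' := fun a s => Subtype.ext (by
        show ((L (a • s) : g) : V →ₗ[ℂ] V) d = a • (L s : V →ₗ[ℂ] V) d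
        rw [map_smul]
        rfl) }
  have hfin : {z : ℂ | Module.End.HasEigenvalue Bd z}.Finite :=
    Module.End.finite_hasEigenvalue Bd
  refine (hfin.image fun z => - z⁻¹).subset fun z hz => ?_
  by_contra hz'
  apply hz
  have hinj : Function.Injective (LinearMap.id + z • Bd : S →ₗ[ℂ] S) := by
    rw [← LinearMap.ker_eq_bot, eq_bot_iff]
    intro s hs
    rw [LinearMap.mem_ker, LinearMap.add_apply, LinearMap.id_apply, LinearMap.smul_apply] at hs
    by_contra hs0
    have hz0 : z ≠ 0 := by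
      rintro rfl
      rw [zero_smul, add_zero] at hs
      exact hs0 hs
    refine hz' ⟨- z⁻¹, Module.End.hasEigenvalue_of_hasEigenvector ⟨?_, hs0⟩, by simp⟩
    rw [Module.End.mem_eigenspace_iff]
    rw [add_comm, add_eq_zero_iff_eq_neg] at hs
    rw [neg_smul, ← smul_neg, ← hs, smul_smul, inv_mul_cancel₀ hz0, one_smul]
  have hsurj := (LinearMap.injective_iff_surjective).1 hinj
  intro s hs
  obtain ⟨s', hs'⟩ := hsurj ⟨s, hs⟩
  refine ⟨L s', (L s').2, ?_⟩
  have h1 := congrArg Subtype.val hs'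
  rw [map_add, map_smul, hL']
  exact h1

/-- Generic points of the same subspace lie in the same orbit. -/
theorem exists_map_eq {P : (V ≃ₗ[ℂ] V) → Prop} {g : Submodule ℂ (V →ₗ[ℂ] V)} (hP : Grp P g)
    {S : Submodule ℂ V} (hS : ∀ N ∈ g, ∀ v ∈ S, N v ∈ S) (v w : S)
    (hv : ∀ s ∈ S, ∃ N ∈ g, N (v : V) = s) (hw : ∀ s ∈ S, ∃ N ∈ g, N (w : V) = s) :
    ∃ φ, P φ ∧ φ (v : V) = w := by
  let l : ℂ → S := fun z => v + z • (w - v)
  let bad : Set ℂ := {z : ℂ | ¬ ∀ s ∈ S, ∃ N ∈ g, N (l z : V) = s}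
  have h1 : bad.Finite := finite_bad hS v (w - v) hv
  have h2 : IsConnected badᶜ :=
    h1.countable.isConnected_compl_of_one_lt_rank (by simp)
  have h0 : (0 : ℂ) ∈ badᶜ := by
    simp only [bad, Set.mem_compl_iff, Set.mem_ofPred_eq, not_not, l, zero_smul, add_zero]
    exact hv
  have h0' : (1 : ℂ) ∈ badᶜ := by
    simp only [bad, Set.mem_compl_iff, Set.mem_ofPred_eq, not_not, l, one_smul, add_sub_cancel]
    exact hw
  have hl : Continuous l := by fun_prop
  have h3 := h2.isPreconnected.induction₂ (fun z z' => ∃ φ, P φ ∧ φ (l z : V) = l z')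
    (fun z hz => ?_) ?_ ?_ h0 h0'
  · obtain ⟨φ, h4, h5⟩ := h3
    refine ⟨φ, h4, ?_⟩
    simpa [l] using h5
  · simp only [bad, Set.mem_compl_iff, Set.mem_ofPred_eq, not_not] at hz
    have h4 := local_orbit hP hS (l z) hz
    exact mem_nhdsWithin_of_mem_nhds (hl.continuousAt.eventually h4)
  · rintro x y z _ _ _ ⟨φ, h4, h5⟩ ⟨ψ, h6, h7⟩
    refine ⟨φ.trans ψ, hP.trans _ _ h4 h6, ?_⟩
    rw [LinearEquiv.trans_apply, h5, h7]
  · rintro x y _ _ ⟨φ, h4, h5⟩
    refine ⟨φ.symm, hP.symm _ h4, ?_⟩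
    rw [← h5, φ.symm_apply_apply]

end Pool.Agent.Lib.MP_8c499d_al
end

section

section

/-!
The subspace generated by a vector; classification of the invariant subspaces.
-/

set_option autoImplicit false
set_option linter.unusedSimpArgs false

open Polynomial

namespace Pool.Agent.Lib.MP_8c499d_al

variable {D : Dat}

theorem degree_natDegree_mul {g f : ℂ[X]} {a b : ℕ} (hg : g.natDegree ≤ a) (hf : f.natDegree ≤ b) :
    (g * f).natDegree ≤ a + b := natDegree_mul_le.trans (add_le_add hg hf)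

theorem good_mono_size {v : Sp D} {m : ℂ} {n n' e : ℕ} (h : Good v m n e) (hn : n ≤ n') :
    Good v m n' e := by
  refine ⟨h.1, fun c hc => (h.2 c hc).trans (mul_dvd_mul_right (pow_dvd_pow _ ?_) _)⟩
  omega

theorem good_step {v : Sp D} {m : ℂ} {n n' e : ℕ} (h : Good v m n' e) (hn : n ≤ n')
    (he : n' - n ≤ e) : Good v m n (e - (n' - n)) := by
  refine ⟨fun i => (pow_dvd_pow _ (by omega)).trans (h.1 i), fun c hc => ?_⟩
  have h1 := h.2 c hc
  have h2 : X ^ (n' - D.ν c) * pol (v.2.2 c) ∣ X ^ (n' - n) * (X ^ (n - D.ν c) * pol (v.2.2 c)) := by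
    rw [← mul_assoc, ← pow_add]
    exact mul_dvd_mul_right (pow_dvd_pow _ (by omega)) _
  have h3 : (X : ℂ[X]) ^ e = X ^ (n' - n) * X ^ (e - (n' - n)) := by
    rw [← pow_add]
    congr 1
    omega
  have h4 := h1.trans h2
  rw [h3] at h4
  exact (mul_dvd_mul_iff_left (pow_ne_zero _ X_ne_zero)).1 h4

theorem Fd_degree {v : Sp D} {d : ℕ} {f : ℂ[X]} (hf : f ∈ Fd v d) : f.degree < d := by
  rw [← mem_degreeLT]
  revert hf
  suffices h : Fd v d ≤ degreeLT ℂ d from fun hf => h hf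
  rw [Fd, Submodule.span_le]
  rintro x ⟨i, g, h1, h2, rfl⟩
  exact mem_degreeLT.2 (degree_mul_lt h1 h2 (degree_pol_lt _))

theorem Fd_dvd {v : Sp D} {d : ℕ} {f q : ℂ[X]} (hf : f ∈ Fd v d)
    (hq : ∀ i, q ∣ pol (v.1 i)) : q ∣ f := by
  induction hf using Submodule.span_induction with
  | mem x hx =>
    obtain ⟨i, g, _, _, rfl⟩ := hx
    exact Dvd.dvd.mul_left (hq i) _
  | zero => exact dvd_zero _
  | add x y _ _ hx hy => exact dvd_add hx hy
  | smul a x _ hx => exact dvd_smul_of_dvd a hx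

theorem Fd_eq_bot {v : Sp D} (hv : v.1 = 0) (d : ℕ) : Fd v d = ⊥ := by
  rw [Fd, Submodule.span_eq_bot]
  rintro x ⟨i, g, _, _, rfl⟩
  rw [hv]
  simp

/-- The order of vanishing at `0`. -/
theorem exists_order {p : ℂ[X]} (hp : p ≠ 0) : ∃ o, X ^ o ∣ p ∧ ¬ X ^ (o + 1) ∣ p := by
  obtain ⟨q, hq, hq'⟩ := exists_eq_pow_rootMultiplicity_mul_and_not_dvd _ hp 0
  rw [C_0, sub_zero] at hq hq'
  generalize rootMultiplicity 0 p = o at hq
  refine ⟨o, ⟨q, hq⟩, fun h0 => hq' ?_⟩
  rw [hq, pow_succ] at h0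
  exact (mul_dvd_mul_iff_left (pow_ne_zero _ X_ne_zero)).1 h0

/-- The data of a vector are admissible. -/
theorem adm_S (v : Sp D) : Adm D (Fd v) (Zd v) (ht v) where
  F_deg _ _ hf := Fd_degree hf
  Z_deg _ _ hg := hg.1
  F_mul i j hij g hg f hf := by
    induction hf using Submodule.span_induction with
    | mem x hx =>
      obtain ⟨l, g', h1, h2, rfl⟩ := hx
      refine Submodule.subset_span ⟨l, g * g', h1.trans hij, ?_, by rw [mul_assoc]⟩
      refine (degree_natDegree_mul hg h2).trans ?_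
      omega
    | zero => rw [mul_zero]; exact zero_mem _
    | add x y _ _ hx hy => rw [mul_add]; exact add_mem hx hy
    | smul a x _ hx => rw [mul_smul_comm]; exact Submodule.smul_mem _ _ hx
  Z_mul i j hij g hg f hf := by
    obtain ⟨h1, h2, h3, h4⟩ := hf
    refine ⟨degree_mul_lt (a := D.k i + 1) (by omega) (hg.trans (by omega)) h1,
      fun hv => by rw [h2 hv, mul_zero], fun l hl c hc => ?_, fun c => ?_⟩
    · rw [← mul_assoc]
      refine h3 l (hij.trans hl) (c * g) ((degree_natDegree_mul hc hg).trans ?_)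
      omega
    · rw [taylor_mul, mul_assoc]
      exact Dvd.dvd.mul_left (h4 c) _
  a_le c := ht_le _ _ _
  a_mono c c' hc hn := by
    rw [hc]
    exact le_ht (good_mono_size (good_ht _ _ _) hn) ((ht_le _ _ _).trans hn)
  a_step c c' hc hn := by
    rw [hc]
    rcases Nat.lt_or_ge (ht v (D.μ c') (D.ν c')) (D.ν c' - D.ν c) with h | h
    · omega
    · have h1 := le_ht (good_step (good_ht v (D.μ c') (D.ν c')) hn h) (by
        have := ht_le v (D.μ c') (D.ν c')
        omega)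
      omega
  F_Z i j h := by
    have hv : v.1 ≠ 0 := fun h0 => h (Fd_eq_bot h0 _)
    rw [eq_bot_iff]
    intro g hg
    exact (Submodule.mem_bot ℂ).2 (hg.2.1 hv)
  F_dvd i c f hf := Fd_dvd hf (good_ht _ _ _).1
  Z_dvd i c g hg := by
    by_cases hg0 : g = 0
    · rw [hg0]
      exact dvd_zero _
    have hv : v.1 = 0 := by
      by_contra h0
      exact hg0 (hg.2.1 h0)
    rcases Nat.lt_or_ge (ht v (D.μ c) (D.ν c)) (D.ν c) with h | h
    swap
    · rw [Nat.sub_eq_zero_of_le h, pow_zero]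
      exact one_dvd _
    have hng := not_good h
    rw [Good, not_and_or] at hng
    rcases hng with hng | hng
    · exfalso
      apply hng
      intro i
      rw [hv]
      simp
    push Not at hng
    obtain ⟨c', hc', hi⟩ := hng
    set a := ht v (D.μ c) (D.ν c)
    have hp : pol (v.2.2 c') ≠ 0 := by
      intro h0
      rw [h0, mul_zero] at hi
      exact hi (dvd_zero _)
    obtain ⟨o, ho1, ho2⟩ := exists_order hp
    have ho3 : o + (D.ν c - D.ν c') ≤ a := by
      by_contra h0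
      refine hi ((pow_dvd_pow X (by omega : a + 1 ≤ (D.ν c - D.ν c') + o)).trans ?_)
      rw [pow_add]
      exact mul_dvd_mul_left _ ho1
    have h4 := hg.2.2.2 c'
    rw [hc'] at h4
    obtain ⟨q, hq⟩ := ho1
    have hq' : ¬ X ∣ q := by
      intro h0
      apply ho2
      rw [hq, pow_succ]
      exact mul_dvd_mul_left _ h0
    have h5 : X ^ (D.ν c - a) ∣ taylor (D.μ c) g := by
      have h6 : X ^ (D.ν c - a) * X ^ o ∣ (taylor (D.μ c) g * q) * X ^ o := by
        have h7 : taylor (D.μ c) g * q * X ^ o = taylor (D.μ c) g * pol (v.2.2 c') := by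
          rw [hq]
          ring
        rw [h7, ← pow_add]
        exact (pow_dvd_pow _ (by omega)).trans h4
      have h8 := (mul_dvd_mul_iff_right (pow_ne_zero _ X_ne_zero)).1 h6
      refine IsCoprime.dvd_of_dvd_mul_right (IsCoprime.pow_left ?_) h8
      exact (prime_X.irreducible.coprime_iff_not_dvd).2 hq'
    have h9 := map_dvd (taylorAlgHom (- D.μ c)) h5
    simpa [taylor_taylor, sub_eq_add_neg] using h9

/-! ### Cayley transform -/

/-- Elements `N` of the Lie algebra with `1 - N` invertible give automorphisms. -/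
theorem cayley {N : Sp D →ₗ[ℂ] Sp D} (hN : N ∈ lie D) {e : Sp D ≃ₗ[ℂ] Sp D}
    (he : ∀ v, e v = v - N v) {e' : Sp D ≃ₗ[ℂ] Sp D} (he' : ∀ v, e' v = v + N v) :
    Aut (e.symm.trans e') := by
  intro s hs v w
  show form s (e' (e.symm v)) (e' (e.symm w)) = form s v w
  have h1 : v = e (e.symm v) := (e.apply_symm_apply v).symm
  have h2 : w = e (e.symm w) := (e.apply_symm_apply w).symm
  conv_rhs => rw [h1, h2]
  rw [he, he, he', he']
  simp only [map_add, map_sub, LinearMap.add_apply, LinearMap.sub_apply]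
  have h3 := hN s hs (e.symm v) (e.symm w)
  linear_combination 2 * h3

theorem exists_scalar {V : Type*} [AddCommGroup V] [Module ℂ V] [FiniteDimensional ℂ V]
    (N : V →ₗ[ℂ] V) : ∃ t : ℂ, t ≠ 0 ∧
      Function.Injective (LinearMap.id - t • N : V →ₗ[ℂ] V) ∧
      Function.Injective (LinearMap.id + t • N : V →ₗ[ℂ] V) := by
  have hfin : {z : ℂ | Module.End.HasEigenvalue N z}.Finite :=
    Module.End.finite_hasEigenvalue N
  obtain ⟨t, -, ht⟩ := (Set.infinite_univ (α := ℂ)).exists_notMem_finite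
    ((hfin.union (hfin.image fun z => - z)).union (Set.finite_singleton 0))
  simp only [Set.mem_union, Set.mem_ofPred_eq, Set.mem_image, Set.mem_singleton_iff, not_or,
    not_exists, not_and] at ht
  obtain ⟨⟨h1, h2⟩, h3⟩ := ht
  refine ⟨t⁻¹, inv_ne_zero h3, ?_, ?_⟩
  · rw [← LinearMap.ker_eq_bot, eq_bot_iff]
    intro v hv
    rw [LinearMap.mem_ker, LinearMap.sub_apply, LinearMap.id_apply, LinearMap.smul_apply,
      sub_eq_zero] at hv
    by_contra hv0
    refine h1 (Module.End.hasEigenvalue_of_hasEigenvector ⟨?_, hv0⟩)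
    rw [Module.End.mem_eigenspace_iff]
    conv_rhs => rw [hv, smul_smul, mul_inv_cancel₀ h3, one_smul]
  · rw [← LinearMap.ker_eq_bot, eq_bot_iff]
    intro v hv
    rw [LinearMap.mem_ker, LinearMap.add_apply, LinearMap.id_apply, LinearMap.smul_apply,
      add_eq_zero_iff_eq_neg] at hv
    by_contra hv0
    refine h2 (- t) (Module.End.hasEigenvalue_of_hasEigenvector ⟨?_, hv0⟩) (neg_neg t)
    rw [Module.End.mem_eigenspace_iff]
    conv_rhs => rw [hv, neg_smul_neg, smul_smul, mul_inv_cancel₀ h3, one_smul]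

/-- A subspace invariant under all automorphisms is invariant under the Lie algebra. -/
theorem lie_map_mem {W : Submodule ℂ (Sp D)}
    (hW : ∀ φ : Sp D ≃ₗ[ℂ] Sp D, Aut φ → ∀ v ∈ W, φ v ∈ W) {N : Sp D →ₗ[ℂ] Sp D}
    (hN : N ∈ lie D) {v : Sp D} (hv : v ∈ W) : N v ∈ W := by
  obtain ⟨t, ht0, ht1, ht2⟩ := exists_scalar N
  set e := LinearEquiv.ofInjectiveEndo _ ht1
  set e' := LinearEquiv.ofInjectiveEndo _ ht2
  have he : ∀ v, e v = v - (t • N) v := fun v => rfl
  have he' : ∀ v, e' v = v + (t • N) v := fun v => rfl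
  have hφ := cayley (Submodule.smul_mem _ t hN) he he'
  have h1 : ∀ w ∈ W, e.symm w ∈ W := by
    intro w hw
    have h2 := hW _ hφ w hw
    have h3 : (e.symm.trans e') w = e' (e.symm w) := rfl
    rw [h3, he'] at h2
    have h4 : w = e.symm w - (t • N) (e.symm w) := by
      rw [← he, e.apply_symm_apply]
    have h5 : e.symm w + e.symm w ∈ W := by
      have h6 : e.symm w + e.symm w = (e.symm w + (t • N) (e.symm w)) + w := by
        have h7 : ∀ x y : Sp D, x = y - (t • N) y → y + y = (y + (t • N) y) + x := by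
          intro x y hxy
          rw [hxy]
          abel
        exact h7 _ _ h4
      rw [h6]
      exact add_mem h2 hw
    exact two_smul_mem h5
  have h2 : W.map e.symm.toLinearMap = W := by
    refine Submodule.eq_of_le_of_finrank_le ?_ ?_
    · rintro _ ⟨w, hw, rfl⟩
      exact h1 w hw
    · exact (LinearEquiv.finrank_map_eq e.symm W).ge
  have h3 : v ∈ W.map e.symm.toLinearMap := by rwa [h2]
  obtain ⟨w, hw, h4⟩ := h3
  have h5 : w = v - t • N v := by
    rw [← LinearMap.smul_apply, ← he, ← h4]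
    exact (e.apply_symm_apply w).symm
  have h6 : t • N v ∈ W := by
    have : t • N v = v - w := by rw [h5]; abel
    rw [this]
    exact sub_mem hv hw
  have h7 := W.smul_mem t⁻¹ h6
  rwa [smul_smul, inv_mul_cancel₀ ht0, one_smul] at h7

theorem T_le {W : Submodule ℂ (Sp D)}
    (hW : ∀ φ : Sp D ≃ₗ[ℂ] Sp D, Aut φ → ∀ v ∈ W, φ v ∈ W) {v : Sp D} (hv : v ∈ W) :
    T v ≤ W := by
  rintro _ ⟨N, hN, rfl⟩
  exact lie_map_mem hW hN hv

/-- Every invariant subspace is given by an admissible family. -/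
theorem exists_adm {W : Submodule ℂ (Sp D)}
    (hW : ∀ φ : Sp D ≃ₗ[ℂ] Sp D, Aut φ → ∀ v ∈ W, φ v ∈ W) :
    ∃ F Z a, Adm D F Z a ∧ W = U D F Z a := by
  set a : ℂ → ℕ → ℕ := fun m n => sInf (Set.range fun v : W => ht (v : Sp D) m n) with ha
  have ha1 : ∀ m n, ∃ v ∈ W, ht v m n = a m n := by
    intro m n
    obtain ⟨v, hv⟩ := Nat.sInf_mem (Set.range_nonempty fun v : W => ht (v : Sp D) m n)
    exact ⟨v, v.2, hv⟩
  have ha2 : ∀ m n, ∀ v ∈ W, a m n ≤ ht v m n := fun m n v hv => Nat.sInf_le ⟨⟨v, hv⟩, rfl⟩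
  refine ⟨fun d => ⨆ v : W, Fd (v : Sp D) d, fun d => ⨅ v : W, Zd (v : Sp D) d, a, ?_, ?_⟩
  · constructor
    · intro i f hf
      rw [← mem_degreeLT]
      revert f
      show (⨆ v : W, Fd (v : Sp D) (D.k i)) ≤ degreeLT ℂ (D.k i)
      exact iSup_le fun v f hf => mem_degreeLT.2 (Fd_degree hf)
    · intro i g hg
      exact ((Submodule.mem_iInf _).1 hg 0).1
    · intro i j hij g hg f hf
      have : (⨆ v : W, Fd (v : Sp D) (D.k i)) ≤
          (⨆ v : W, Fd (v : Sp D) (D.k j)).comap (LinearMap.mulLeft ℂ g) := by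
        refine iSup_le fun v f hf => ?_
        exact Submodule.mem_iSup_of_mem v ((adm_S (v : Sp D)).F_mul i j hij g hg f hf)
      exact this hf
    · intro i j hij g hg f hf
      rw [Submodule.mem_iInf] at hf ⊢
      exact fun v => (adm_S (v : Sp D)).Z_mul i j hij g hg f (hf v)
    · intro c
      exact (ha2 _ _ 0 (zero_mem _)).trans (ht_le _ _ _)
    · intro c c' hc hn
      obtain ⟨v, hv, hv'⟩ := ha1 (D.μ c') (D.ν c')
      rw [← hv']
      exact (ha2 _ _ v hv).trans ((adm_S v).a_mono c c' hc hn)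
    · intro c c' hc hn
      obtain ⟨v, hv, hv'⟩ := ha1 (D.μ c) (D.ν c)
      rw [← hv']
      exact (ha2 _ _ v hv).trans ((adm_S v).a_step c c' hc hn)
    · intro i j h
      obtain ⟨v, hv⟩ : ∃ v : W, Fd (v : Sp D) (D.k i) ≠ ⊥ := by
        by_contra h0
        push Not at h0
        exact h (by simp [h0])
      rw [eq_bot_iff, ← (adm_S (v : Sp D)).F_Z i j hv]
      exact iInf_le _ v
    · intro i c f hf
      have : (⨆ v : W, Fd (v : Sp D) (D.k i)) ≤
          (Ideal.span {(X - C (D.μ c)) ^ a (D.μ c) (D.ν c)}).restrictScalars ℂ := by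
        refine iSup_le fun v f hf => ?_
        rw [Submodule.restrictScalars_mem, Ideal.mem_span_singleton]
        exact (pow_dvd_pow _ (ha2 _ _ v v.2)).trans ((adm_S (v : Sp D)).F_dvd i c f hf)
      have h1 := this hf
      rwa [Submodule.restrictScalars_mem, Ideal.mem_span_singleton] at h1
    · intro i c g hg
      obtain ⟨v, hv, hv'⟩ := ha1 (D.μ c) (D.ν c)
      rw [← hv']
      exact (adm_S v).Z_dvd i c g ((Submodule.mem_iInf _).1 hg ⟨v, hv⟩)
  · refine le_antisymm (fun v hv => ?_) (fun z hz => ?_)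
    · obtain ⟨h1, h2, h3⟩ := self_mem_S v
      refine ⟨fun i => Submodule.mem_iSup_of_mem ⟨v, hv⟩ (h1 i), fun i g hg => ?_, fun c => ?_⟩
      · exact h2 i g ((Submodule.mem_iInf _).1 hg ⟨v, hv⟩)
      · exact (pow_dvd_pow _ (ha2 _ _ v hv)).trans (h3 c)
    · obtain ⟨h1, h2, h3⟩ := hz
      rw [sum_ι z]
      refine add_mem (add_mem (sum_mem fun i _ => ?_) (sum_mem fun i _ => ?_))
        (sum_mem fun c _ => ?_)
      · have h4 : (⨆ v : W, Fd (v : Sp D) (D.k i)) ≤ W.comap (ιF i ∘ₗ tr (D.k i)) :=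
          iSup_le fun v f hf => T_le hW v.2 (ιF_mem_T hf)
        have h5 := h4 (h1 i)
        rw [Submodule.mem_comap, LinearMap.comp_apply, tr_pol] at h5
        exact h5
      · refine ιL_mem_of fun g hg hg' => h2 i g ?_
        rw [Submodule.mem_iInf]
        exact fun v => mem_Zd_of hg fun y hy => hg' y (T_le hW v.2 hy)
      · obtain ⟨v, hv, hv'⟩ := ha1 (D.μ c) (D.ν c)
        refine T_le hW hv (ιM_mem_T ?_)
        rw [hv']
        exact h3 c

/-- Classification of the invariant subspaces in the model. -/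
theorem invariant_iff (W : Submodule ℂ (Sp D)) :
    (∀ φ : Sp D ≃ₗ[ℂ] Sp D, Aut φ → ∀ v ∈ W, φ v ∈ W) ↔
      ∃ F Z a, Adm D F Z a ∧ W = U D F Z a :=
  ⟨exists_adm, by
    rintro ⟨F, Z, a, h, rfl⟩ φ hφ v hv
    exact h.map_mem hφ hv⟩

end Pool.Agent.Lib.MP_8c499d_al
end

section

/-!
The orbits of the automorphism group in the model.
-/

set_option autoImplicit false
set_option linter.unusedSimpArgs false

open Polynomial

namespace Pool.Agent.Lib.MP_8c499d_al

variable {D : Dat}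

theorem S_invariant (v : Sp D) : ∀ φ : Sp D ≃ₗ[ℂ] Sp D, Aut φ → ∀ w ∈ S v, φ w ∈ S v :=
  fun _ hφ _ hw => (adm_S v).map_mem hφ hw

theorem T_eq_S (v : Sp D) : T v = S v := le_antisymm (T_le (S_invariant v) (self_mem_S v)) (S_le_T v)

theorem S_le_of_mem {v w : Sp D} (h : w ∈ S v) : S w ≤ S v := by
  rw [← T_eq_S w]
  exact T_le (S_invariant v) h

theorem S_map {φ : Sp D ≃ₗ[ℂ] Sp D} (hφ : Aut φ) (v : Sp D) : S (φ v) = S v := by
  refine le_antisymm (S_le_of_mem (S_invariant v φ hφ v (self_mem_S v))) (S_le_of_mem ?_)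
  have := S_invariant (φ v) φ.symm hφ.symm (φ v) (self_mem_S _)
  rwa [φ.symm_apply_apply] at this

theorem grp (D : Dat) : Grp (V := Sp D) Aut (lie D) where
  refl := fun _ _ _ _ => rfl
  symm := fun _ h => h.symm
  trans := fun φ ψ h h' s hs v w => by
    rw [LinearEquiv.trans_apply, LinearEquiv.trans_apply, h' s hs, h s hs]
  cayley := fun _ hN _ _ he he' => cayley hN he he'

/-- The orbits are separated by the invariant subspaces they generate. -/
theorem orbit_iff_S (v w : Sp D) : (∃ φ, Aut φ ∧ φ v = w) ↔ S v = S w := by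
  constructor
  · rintro ⟨φ, hφ, rfl⟩
    exact (S_map hφ v).symm
  · intro h
    have hv : v ∈ S v := self_mem_S v
    have hw : w ∈ S v := by rw [h]; exact self_mem_S w
    refine exists_map_eq (grp D) (S := S v) (fun N hN x hx => lie_map_mem (S_invariant v) hN hx)
      ⟨v, hv⟩ ⟨w, hw⟩ (fun s hs => ?_) (fun s hs => ?_)
    · rw [← T_eq_S] at hs
      exact hs
    · rw [h, ← T_eq_S] at hs
      exact hs

theorem ιF_mem_U {F Z : ℕ → Submodule ℂ ℂ[X]} {a : ℂ → ℕ → ℕ} {i : D.ι} {x : E (D.k i)} :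
    ιF i x ∈ U D F Z a ↔ pol x ∈ F (D.k i) := by
  constructor
  · intro h
    have := h.1 i
    rwa [ιF_fst_same] at this
  · intro h
    refine ⟨fun j => ?_, fun j g _ => by simp [ιF_apply], fun c => by simp [ιF_apply]⟩
    by_cases hj : j = i
    · subst hj
      rwa [ιF_fst_same]
    · rw [ιF_apply, pol_single_ne x hj]
      exact zero_mem _

theorem ιM_mem_U {F Z : ℕ → Submodule ℂ ℂ[X]} {a : ℂ → ℕ → ℕ} {c : D.γ} {x : E (D.ν c)} :
    ιM c x ∈ U D F Z a ↔ X ^ a (D.μ c) (D.ν c) ∣ pol x := by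
  constructor
  · intro h
    have := h.2.2 c
    rwa [ιM_same] at this
  · intro h
    refine ⟨fun j => by simp [ιM_apply], fun j g _ => by simp [ιM_apply], fun c' => ?_⟩
    by_cases hj : c' = c
    · subst hj
      rwa [ιM_same]
    · rw [ιM_apply]
      show _ ∣ pol (Pi.single (M := fun c => E (D.ν c)) c x c')
      rw [Pi.single_eq_of_ne hj, map_zero]
      exact dvd_zero _

theorem S_eq_iff (v w : Sp D) : S v = S w ↔ (∀ i, Fd v (D.k i) = Fd w (D.k i)) ∧
    (∀ i, Zd v (D.k i) = Zd w (D.k i)) ∧ ∀ c, ht v (D.μ c) (D.ν c) = ht w (D.μ c) (D.ν c) := by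
  constructor
  · intro h
    have key : ∀ v w : Sp D, S v = S w → (∀ i, Fd v (D.k i) ≤ Fd w (D.k i)) ∧
        (∀ i, Zd v (D.k i) ≤ Zd w (D.k i)) ∧
          ∀ c, ht v (D.μ c) (D.ν c) ≤ ht w (D.μ c) (D.ν c) := by
      intro v w h
      refine ⟨fun i f hf => ?_, fun i g hg => ?_, fun c => ?_⟩
      · have h1 : ιF i (tr _ f) ∈ S v := by
          rw [S, ιF_mem_U, pol_tr (Fd_degree hf)]
          exact hf
        rwa [h, S, ιF_mem_U, pol_tr (Fd_degree hf)] at h1
      · refine mem_Zd_of hg.1 fun y hy => ?_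
        rw [T_eq_S, ← h] at hy
        have := hy.2.1 i g hg
        rwa [ιL_same] at this
      · rcases Nat.lt_or_ge (ht w (D.μ c) (D.ν c)) (D.ν c) with h1 | h1
        · have h2 : ιM c (tr _ (X ^ ht w (D.μ c) (D.ν c))) ∈ S w := by
            rw [S, ιM_mem_U]
            exact X_pow_dvd_pol_tr dvd_rfl
          rw [← h, S, ιM_mem_U, pol_tr (by rw [degree_X_pow]; exact_mod_cast h1)] at h2
          exact (pow_dvd_pow_iff X_ne_zero not_isUnit_X).1 h2
        · exact (ht_le _ _ _).trans h1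
    obtain ⟨h1, h2, h3⟩ := key v w h
    obtain ⟨h4, h5, h6⟩ := key w v h.symm
    exact ⟨fun i => le_antisymm (h1 i) (h4 i), fun i => le_antisymm (h2 i) (h5 i),
      fun c => le_antisymm (h3 c) (h6 c)⟩
  · rintro ⟨h1, h2, h3⟩
    ext z
    simp only [S, mem_U, h1, h2, h3]

/-- The orbits are separated by the invariants. -/
theorem orbit_iff (v w : Sp D) : (∃ φ, Aut φ ∧ φ v = w) ↔
    (∀ i, Fd v (D.k i) = Fd w (D.k i)) ∧ (∀ i, Zd v (D.k i) = Zd w (D.k i)) ∧
      ∀ c, ht v (D.μ c) (D.ν c) = ht w (D.μ c) (D.ν c) :=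
  (orbit_iff_S v w).trans (S_eq_iff v w)

end Pool.Agent.Lib.MP_8c499d_al
end

section

/-!
From matrices to the model.
-/

set_option autoImplicit false
set_option linter.unusedSimpArgs false

open Polynomial

namespace Pool.Agent.Lib.MP_8c499d_al

variable {ι κ : Type} [Fintype ι] [Fintype κ] [DecidableEq ι] [DecidableEq κ]

/-- The data of the model. -/
@[reducible] def datOf (k : ι → ℕ) (n : κ → ℕ) (μ : κ → ℂ) : Dat where
  ι := ι
  γ := κ × Bool
  k := k
  ν := fun c => n c.1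
  μ := fun c => μ c.1
  st := fun c => (c.1, !c.2)
  ε := fun c => if c.2 then 1 else -1
  st_st := fun c => by simp
  ν_st := fun c => rfl
  μ_st := fun c => rfl
  ε_st := fun c => by
    rcases c with ⟨j, _ | _⟩ <;> simp
  ε_sq := fun c => by
    rcases c with ⟨j, _ | _⟩ <;> simp

variable {k : ι → ℕ} {n : κ → ℕ} (μ : κ → ℂ)

/-- Coordinates as a vector of the model. -/
def toSp : (Idx k n → ℂ) ≃ₗ[ℂ] Sp (datOf k n μ) where
  toFun x := (fun i r => x (Sum.inl ⟨i, Sum.inl r⟩), fun i r => x (Sum.inl ⟨i, Sum.inr r⟩),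
    fun c r => if c.2 then x (Sum.inr ⟨c.1, Sum.inl r⟩) else x (Sum.inr ⟨c.1, Sum.inr (Fin.rev r)⟩))
  invFun z := fun s => match s with
    | Sum.inl ⟨i, Sum.inl r⟩ => z.1 i r
    | Sum.inl ⟨i, Sum.inr r⟩ => z.2.1 i r
    | Sum.inr ⟨j, Sum.inl r⟩ => z.2.2 (j, true) r
    | Sum.inr ⟨j, Sum.inr r⟩ => z.2.2 (j, false) (Fin.rev r)
  left_inv x := by
    funext s
    rcases s with ⟨i, r | r⟩ | ⟨j, r | r⟩ <;> simp
  right_inv z := by
    refine Prod.ext rfl (Prod.ext rfl ?_)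
    funext c r
    rcases c with ⟨j, _ | _⟩ <;> simp
  map_add' x y := by
    refine Prod.ext rfl (Prod.ext rfl ?_)
    funext c r
    rcases c with ⟨j, _ | _⟩ <;> rfl
  map_smul' a x := by
    refine Prod.ext rfl (Prod.ext rfl ?_)
    funext c r
    rcases c with ⟨j, _ | _⟩ <;> rfl

theorem toSp_single_1 (i : ι) (r : Fin (k i)) :
    toSp μ (Pi.single (Sum.inl ⟨i, Sum.inl r⟩) 1 : Idx k n → ℂ) = ιF i (Pi.single r 1) := by
  rw [ιF_apply]
  refine Prod.ext ?_ (Prod.ext ?_ ?_)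
  · funext i' r'
    show (Pi.single (Sum.inl ⟨i, Sum.inl r⟩) 1 : Idx k n → ℂ) (Sum.inl ⟨i', Sum.inl r'⟩) =
      (Pi.single (M := fun i => E (k i)) i (Pi.single r 1) : _) i' r'
    by_cases h : i' = i
    · subst h
      rw [Pi.single_eq_same, Pi.single_apply, Pi.single_apply]
      congr 1
      simp
    · rw [Pi.single_eq_of_ne h, Pi.single_eq_of_ne]
      · rfl
      · intro h'
        simp only [Sum.inl.injEq, Sigma.mk.injEq] at h'
        exact h h'.1
  · funext i' r'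
    show (Pi.single (Sum.inl ⟨i, Sum.inl r⟩) 1 : Idx k n → ℂ) (Sum.inl ⟨i', Sum.inr r'⟩) = 0
    rw [Pi.single_eq_of_ne]
    intro h'
    simp only [Sum.inl.injEq, Sigma.mk.injEq] at h'
    obtain ⟨rfl, h'⟩ := h'
    simp at h'
  · funext c r'
    rcases c with ⟨j, _ | _⟩
    · show (Pi.single (Sum.inl ⟨i, Sum.inl r⟩) 1 : Idx k n → ℂ)
        (Sum.inr ⟨j, Sum.inr (Fin.rev r')⟩) = 0
      simp
    · show (Pi.single (Sum.inl ⟨i, Sum.inl r⟩) 1 : Idx k n → ℂ) (Sum.inr ⟨j, Sum.inl r'⟩) = 0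
      simp

theorem toSp_single_2 (i : ι) (r : Fin (k i + 1)) :
    toSp μ (Pi.single (Sum.inl ⟨i, Sum.inr r⟩) 1 : Idx k n → ℂ) = ιL i (Pi.single r 1) := by
  rw [ιL_apply]
  refine Prod.ext ?_ (Prod.ext ?_ ?_)
  · funext i' r'
    show (Pi.single (Sum.inl ⟨i, Sum.inr r⟩) 1 : Idx k n → ℂ) (Sum.inl ⟨i', Sum.inl r'⟩) = 0
    rw [Pi.single_eq_of_ne]
    intro h'
    simp only [Sum.inl.injEq, Sigma.mk.injEq] at h'
    obtain ⟨rfl, h'⟩ := h'
    simp at h'
  · funext i' r'
    show (Pi.single (Sum.inl ⟨i, Sum.inr r⟩) 1 : Idx k n → ℂ) (Sum.inl ⟨i', Sum.inr r'⟩) =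
      (Pi.single (M := fun i => E (k i + 1)) i (Pi.single r 1) : _) i' r'
    by_cases h : i' = i
    · subst h
      rw [Pi.single_eq_same, Pi.single_apply, Pi.single_apply]
      congr 1
      simp
    · rw [Pi.single_eq_of_ne h, Pi.single_eq_of_ne]
      · rfl
      · intro h'
        simp only [Sum.inl.injEq, Sigma.mk.injEq] at h'
        exact h h'.1
  · funext c r'
    rcases c with ⟨j, _ | _⟩
    · show (Pi.single (Sum.inl ⟨i, Sum.inr r⟩) 1 : Idx k n → ℂ)
        (Sum.inr ⟨j, Sum.inr (Fin.rev r')⟩) = 0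
      simp
    · show (Pi.single (Sum.inl ⟨i, Sum.inr r⟩) 1 : Idx k n → ℂ) (Sum.inr ⟨j, Sum.inl r'⟩) = 0
      simp

theorem toSp_single_3 (j : κ) (r : Fin (n j)) :
    toSp μ (Pi.single (Sum.inr ⟨j, Sum.inl r⟩) 1 : Idx k n → ℂ) =
      ιM (D := datOf k n μ) (j, true) (Pi.single r 1) := by
  rw [ιM_apply]
  refine Prod.ext ?_ (Prod.ext ?_ ?_)
  · funext i' r'
    show (Pi.single (Sum.inr ⟨j, Sum.inl r⟩) 1 : Idx k n → ℂ) (Sum.inl ⟨i', Sum.inl r'⟩) = 0
    simp
  · funext i' r'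
    show (Pi.single (Sum.inr ⟨j, Sum.inl r⟩) 1 : Idx k n → ℂ) (Sum.inl ⟨i', Sum.inr r'⟩) = 0
    simp
  · funext c r'
    rcases c with ⟨j', _ | _⟩
    · show (Pi.single (Sum.inr ⟨j, Sum.inl r⟩) 1 : Idx k n → ℂ)
          (Sum.inr ⟨j', Sum.inr (Fin.rev r')⟩) =
        (Pi.single (M := fun c : κ × Bool => E (n c.1)) (j, true) (Pi.single r 1) : _) (j', false) r'
      have h1 : (j', false) ≠ (j, true) := by simp
      have h2 : (j', true) ≠ (j, false) := by simp
      refine Eq.trans (b := 0) (Pi.single_eq_of_ne ?_ _) ?_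
      · intro h'
        simp only [Sum.inr.injEq, Sigma.mk.injEq] at h'
        obtain ⟨rfl, h'⟩ := h'
        simp at h'
      · rw [Pi.single_eq_of_ne h1]; rfl
    · show (Pi.single (Sum.inr ⟨j, Sum.inl r⟩) 1 : Idx k n → ℂ) (Sum.inr ⟨j', Sum.inl r'⟩) =
        (Pi.single (M := fun c : κ × Bool => E (n c.1)) (j, true) (Pi.single r 1) : _) (j', true) r'
      by_cases h : j' = j
      · subst h
        rw [Pi.single_eq_same, Pi.single_apply, Pi.single_apply]
        congr 1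
        simp
      · refine Eq.trans (b := 0) (Pi.single_eq_of_ne ?_ _) ?_
        · intro h'
          simp only [Sum.inr.injEq, Sigma.mk.injEq] at h'
          exact h h'.1
        · rw [Pi.single_eq_of_ne]
          · rfl
          · intro h'
            exact h (congrArg Prod.fst h')

theorem toSp_single_4 (j : κ) (r : Fin (n j)) :
    toSp μ (Pi.single (Sum.inr ⟨j, Sum.inr r⟩) 1 : Idx k n → ℂ) =
      ιM (D := datOf k n μ) (j, false) (Pi.single (Fin.rev r) 1) := by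
  rw [ιM_apply]
  refine Prod.ext ?_ (Prod.ext ?_ ?_)
  · funext i' r'
    show (Pi.single (Sum.inr ⟨j, Sum.inr r⟩) 1 : Idx k n → ℂ) (Sum.inl ⟨i', Sum.inl r'⟩) = 0
    simp
  · funext i' r'
    show (Pi.single (Sum.inr ⟨j, Sum.inr r⟩) 1 : Idx k n → ℂ) (Sum.inl ⟨i', Sum.inr r'⟩) = 0
    simp
  · funext c r'
    rcases c with ⟨j', _ | _⟩
    · show (Pi.single (Sum.inr ⟨j, Sum.inr r⟩) 1 : Idx k n → ℂ)
          (Sum.inr ⟨j', Sum.inr (Fin.rev r')⟩) =
        (Pi.single (M := fun c : κ × Bool => E (n c.1)) (j, false) (Pi.single (Fin.rev r) 1) : _)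
          (j', false) r'
      by_cases h : j' = j
      · subst h
        rw [Pi.single_eq_same, Pi.single_apply, Pi.single_apply]
        congr 1
        simp only [Sum.inr.injEq, Sigma.mk.injEq, heq_eq_eq, true_and, eq_iff_iff]
        constructor
        · intro h
          rw [← h, Fin.rev_rev]
        · intro h
          rw [h, Fin.rev_rev]
      · refine Eq.trans (b := 0) (Pi.single_eq_of_ne ?_ _) ?_
        · intro h'
          simp only [Sum.inr.injEq, Sigma.mk.injEq] at h'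
          exact h h'.1
        · rw [Pi.single_eq_of_ne]
          · rfl
          · intro h'
            exact h (congrArg Prod.fst h')
    · show (Pi.single (Sum.inr ⟨j, Sum.inr r⟩) 1 : Idx k n → ℂ) (Sum.inr ⟨j', Sum.inl r'⟩) =
        (Pi.single (M := fun c : κ × Bool => E (n c.1)) (j, false) (Pi.single (Fin.rev r) 1) : _)
          (j', true) r'
      have h1 : (j', false) ≠ (j, true) := by simp
      have h2 : (j', true) ≠ (j, false) := by simp
      refine Eq.trans (b := 0) (Pi.single_eq_of_ne ?_ _) ?_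
      · intro h'
        simp only [Sum.inr.injEq, Sigma.mk.injEq] at h'
        obtain ⟨rfl, h'⟩ := h'
        simp at h'
      · rw [Pi.single_eq_of_ne h2]; rfl

theorem pol_single {n : ℕ} (r : Fin n) : pol (Pi.single r (1 : ℂ)) = X ^ (r : ℕ) := by
  ext s
  rw [coeff_X_pow, coeff_pol]
  split_ifs with h1 h2 h2
  · subst h2
    simp
  · rw [Pi.single_eq_of_ne]
    intro h3
    exact h2 (congrArg Fin.val h3)
  · exfalso
    omega
  · rfl

theorem pr_single {n : ℕ} (r : Fin n) (g : ℂ[X]) : pr (Pi.single r (1 : ℂ)) g = g.coeff r := by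
  rw [pr_apply, Finset.sum_eq_single r]
  · simp
  · intro b _ hb
    rw [Pi.single_eq_of_ne hb, zero_mul]
  · simp

section

variable (MK : ∀ k : ℕ, Matrix (Fin k) (Fin (k + 1)) ℂ)
  (MJ : ∀ j : κ, Matrix (Fin (n j)) (Fin (n j)) ℂ)

/-- A block matrix. -/
def matP : Matrix (Idx k n) (Idx k n) ℂ :=
  Matrix.fromBlocks
    (Matrix.blockDiagonal' fun i => Matrix.fromBlocks 0 (MK (k i)) (-(MK (k i)).transpose) 0)
    0 0 (Matrix.blockDiagonal' fun j => Matrix.fromBlocks 0 (MJ j) (-(MJ j).transpose) 0)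

theorem form_FL (s : ℂ[X]) (i i' : ι) (r : Fin (k i)) (r' : Fin (k i' + 1))
    (hK : ∀ i (r : Fin (k i)) (r' : Fin (k i + 1)),
      (s * X ^ (r : ℕ)).coeff (r' : ℕ) = MK (k i) r r') :
    form (D := datOf k n μ) s (ιF i (Pi.single r 1)) (ιL i' (Pi.single r' 1)) =
      matP MK MJ (Sum.inl ⟨i, Sum.inl r⟩) (Sum.inl ⟨i', Sum.inr r'⟩) := by
  rw [form_ιF_left, matP, Matrix.fromBlocks_apply₁₁]
  by_cases h : i = i'
  · subst h
    rw [ιL_same, pol_single, Matrix.blockDiagonal'_apply_eq, Matrix.fromBlocks_apply₁₂, ← hK]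
    exact pr_single _ _
  · rw [Matrix.blockDiagonal'_apply_ne _ _ _ h, ιL_apply]
    show pr (Pi.single (M := fun i => E (k i + 1)) i' (Pi.single r' 1) i) _ = 0
    rw [Pi.single_eq_of_ne h, map_zero, LinearMap.zero_apply]

theorem form_MM (s : ℂ[X]) (j j' : κ) (r : Fin (n j)) (r' : Fin (n j'))
    (hJ : ∀ j (r r' : Fin (n j)),
      (taylor (μ j) s * X ^ (r : ℕ) * X ^ (n j - 1 - (r' : ℕ))).coeff (n j - 1) = MJ j r r') :
    form (D := datOf k n μ) s (ιM (j, true) (Pi.single r 1))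
      (ιM (j', false) (Pi.single (Fin.rev r') 1)) =
      matP (k := k) MK MJ (Sum.inr ⟨j, Sum.inl r⟩) (Sum.inr ⟨j', Sum.inr r'⟩) := by
  rw [form_ιM_left, matP, Matrix.fromBlocks_apply₂₂]
  show (if (true = true) then (1 : ℂ) else -1) * _ = _
  rw [if_pos rfl, one_mul]
  by_cases h : j = j'
  · subst h
    rw [Matrix.blockDiagonal'_apply_eq, Matrix.fromBlocks_apply₁₂, ← hJ]
    have h2 : ((Fin.rev r' : Fin (n j)) : ℕ) = n j - 1 - (r' : ℕ) := by
      rw [Fin.val_rev]
      omega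
    have h1 : pol (Pi.single (Fin.rev r') (1 : ℂ) : Fin (n j) → ℂ) =
        X ^ (n j - 1 - (r' : ℕ)) := by
      rw [pol_single, h2]
    have h3 : (ιM (D := datOf k n μ) (j, false)
        (Pi.single (Fin.rev r') 1 : Fin (n j) → ℂ)).2.2 (j, false) =
        (Pi.single (Fin.rev r') 1 : Fin (n j) → ℂ) := ιM_same _ _
    show (taylor (μ j) s * pol (Pi.single r 1 : Fin (n j) → ℂ) *
      pol ((ιM (D := datOf k n μ) (j, false)
        (Pi.single (Fin.rev r') 1 : Fin (n j) → ℂ)).2.2 (j, false))).coeff (n j - 1) = _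
    rw [h3, h1, pol_single]
  · rw [Matrix.blockDiagonal'_apply_ne _ _ _ h, ιM_apply]
    show (taylor (μ j) s * pol (Pi.single r 1 : Fin (n j) → ℂ) *
      pol ((Pi.single (M := fun c : κ × Bool => E (n c.1)) (j', false)
        (Pi.single (Fin.rev r') 1 : Fin (n j') → ℂ) : _) (j, false))).coeff (n j - 1) = 0
    rw [Pi.single_eq_of_ne (by
      intro h'
      exact h (congrArg Prod.fst h')), map_zero, mul_zero, coeff_zero]

omit [Fintype ι] [Fintype κ] in
theorem matP_skew (x y : Idx k n) : matP MK MJ y x = - matP MK MJ x y := by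
  have h : (matP (k := k) MK MJ).transpose = - matP (k := k) MK MJ := by
    simp only [matP, Matrix.fromBlocks_transpose, Matrix.blockDiagonal'_transpose,
      Matrix.fromBlocks_neg, Matrix.transpose_zero, neg_zero, Matrix.transpose_neg,
      Matrix.transpose_transpose]
    congr 1
    · rw [← Matrix.blockDiagonal'_neg]
      congr 1
      funext i
      simp [Matrix.fromBlocks_neg]
    · rw [← Matrix.blockDiagonal'_neg]
      congr 1
      funext i
      simp [Matrix.fromBlocks_neg]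
  exact congrFun (congrFun h x) y

omit [Fintype ι] [Fintype κ] in
theorem matP_zero_1 (i i' : ι) (r : Fin (k i)) (r' : Fin (k i')) :
    matP (n := n) MK MJ (Sum.inl ⟨i, Sum.inl r⟩) (Sum.inl ⟨i', Sum.inl r'⟩) = 0 := by
  rw [matP, Matrix.fromBlocks_apply₁₁]
  by_cases h : i = i'
  · subst h
    rw [Matrix.blockDiagonal'_apply_eq]
    rfl
  · exact Matrix.blockDiagonal'_apply_ne _ _ _ h

omit [Fintype ι] [Fintype κ] in
theorem matP_zero_2 (i i' : ι) (r : Fin (k i + 1)) (r' : Fin (k i' + 1)) :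
    matP (n := n) MK MJ (Sum.inl ⟨i, Sum.inr r⟩) (Sum.inl ⟨i', Sum.inr r'⟩) = 0 := by
  rw [matP, Matrix.fromBlocks_apply₁₁]
  by_cases h : i = i'
  · subst h
    rw [Matrix.blockDiagonal'_apply_eq]
    rfl
  · exact Matrix.blockDiagonal'_apply_ne _ _ _ h

omit [Fintype ι] [Fintype κ] in
theorem matP_zero_3 (j j' : κ) (r : Fin (n j)) (r' : Fin (n j')) :
    matP (k := k) MK MJ (Sum.inr ⟨j, Sum.inl r⟩) (Sum.inr ⟨j', Sum.inl r'⟩) = 0 := by
  rw [matP, Matrix.fromBlocks_apply₂₂]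
  by_cases h : j = j'
  · subst h
    rw [Matrix.blockDiagonal'_apply_eq]
    rfl
  · exact Matrix.blockDiagonal'_apply_ne _ _ _ h

omit [Fintype ι] [Fintype κ] in
theorem matP_zero_4 (j j' : κ) (r : Fin (n j)) (r' : Fin (n j')) :
    matP (k := k) MK MJ (Sum.inr ⟨j, Sum.inr r⟩) (Sum.inr ⟨j', Sum.inr r'⟩) = 0 := by
  rw [matP, Matrix.fromBlocks_apply₂₂]
  by_cases h : j = j'
  · subst h
    rw [Matrix.blockDiagonal'_apply_eq]
    rfl
  · exact Matrix.blockDiagonal'_apply_ne _ _ _ h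

theorem form_single (s : ℂ[X])
    (hK : ∀ i (r : Fin (k i)) (r' : Fin (k i + 1)),
      (s * X ^ (r : ℕ)).coeff (r' : ℕ) = MK (k i) r r')
    (hJ : ∀ j (r r' : Fin (n j)),
      (taylor (μ j) s * X ^ (r : ℕ) * X ^ (n j - 1 - (r' : ℕ))).coeff (n j - 1) = MJ j r r')
    (x y : Idx k n) :
    form s (toSp μ (Pi.single x 1)) (toSp μ (Pi.single y 1)) = matP MK MJ x y := by
  rcases x with ⟨i, r | r⟩ | ⟨j, r | r⟩ <;> rcases y with ⟨i', r' | r'⟩ | ⟨j', r' | r'⟩
  · rw [toSp_single_1, toSp_single_1, matP_zero_1, form_ιF_left, ιF_apply]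
    simp
  · rw [toSp_single_1, toSp_single_2]
    exact form_FL μ MK MJ s i i' r r' hK
  · rw [toSp_single_1, toSp_single_3, form_ιF_left, ιM_apply]
    simp [matP]
  · rw [toSp_single_1, toSp_single_4, form_ιF_left, ιM_apply]
    simp [matP]
  · rw [toSp_single_2, toSp_single_1, form_skew, matP_skew]
    rw [form_FL μ MK MJ s i' i r' r hK]
  · rw [toSp_single_2, toSp_single_2, matP_zero_2, form_ιL_left, ιL_apply]
    simp
  · rw [toSp_single_2, toSp_single_3, form_ιL_left, ιM_apply]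
    simp [matP]
  · rw [toSp_single_2, toSp_single_4, form_ιL_left, ιM_apply]
    simp [matP]
  · rw [toSp_single_3, toSp_single_1, form_skew, form_ιF_left, ιM_apply]
    simp [matP]
  · rw [toSp_single_3, toSp_single_2, form_ιL_right, ιM_apply]
    simp [matP]
  · rw [toSp_single_3, toSp_single_3, matP_zero_3, form_ιM_left]
    have h : (ιM (D := datOf k n μ) (j', true) (Pi.single r' 1)).2.2 ((j, false) : κ × Bool) = 0 := by
      rw [ιM_apply]
      exact Pi.single_eq_of_ne (by simp) _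
    have h' : pol ((ιM (D := datOf k n μ) (j', true) (Pi.single r' 1)).2.2
      ((datOf k n μ).st (j, true))) = 0 := by
      show pol ((ιM (D := datOf k n μ) (j', true) (Pi.single r' 1)).2.2 ((j, false) : κ × Bool)) = 0
      rw [h, map_zero]
    rw [h', mul_zero, coeff_zero, mul_zero]
  · rw [toSp_single_3, toSp_single_4]
    exact form_MM μ MK MJ s j j' r r' hJ
  · rw [toSp_single_4, toSp_single_1, form_skew, form_ιF_left, ιM_apply]
    simp [matP]
  · rw [toSp_single_4, toSp_single_2, form_ιL_right, ιM_apply]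
    simp [matP]
  · rw [toSp_single_4, toSp_single_3, form_skew, matP_skew]
    rw [form_MM μ MK MJ s j' j r' r hJ]
  · rw [toSp_single_4, toSp_single_4, matP_zero_4, form_ιM_left]
    have h : (ιM (D := datOf k n μ) (j', false) (Pi.single (Fin.rev r') 1)).2.2
        ((j, true) : κ × Bool) = 0 := by
      rw [ιM_apply]
      exact Pi.single_eq_of_ne (by simp) _
    have h' : pol ((ιM (D := datOf k n μ) (j', false) (Pi.single (Fin.rev r') 1)).2.2
      ((datOf k n μ).st (j, false))) = 0 := by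
      show pol ((ιM (D := datOf k n μ) (j', false) (Pi.single (Fin.rev r') 1)).2.2
        ((j, true) : κ × Bool)) = 0
      rw [h, map_zero]
    rw [h', mul_zero, coeff_zero, mul_zero]

end

end Pool.Agent.Lib.MP_8c499d_al
end

section

/-!
Classification of the invariant subspaces and of the orbits, in terms of matrices.
-/

set_option autoImplicit false
set_option linter.unusedSimpArgs false

open Polynomial

namespace Pool.Agent.Lib.MP_8c499d_al

theorem form_add_s {D : Dat} (s s' : ℂ[X]) (v w : Sp D) :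
    form (s + s') v w = form s v w + form s' v w := by
  simp only [form_apply, formF, formM, add_mul, map_add, coeff_add, mul_add,
    Finset.sum_add_distrib]
  ring

theorem form_C_mul {D : Dat} (a : ℂ) (s : ℂ[X]) (v w : Sp D) :
    form (C a * s) v w = a * form s v w := by
  simp only [form_apply, formF, formM, taylor_mul, taylor_C, mul_assoc, coeff_C_mul, mul_add,
    mul_sub, Finset.mul_sum]
  simp only [← smul_eq_C_mul, map_smul, smul_eq_mul, mul_left_comm a]

theorem form_lin {D : Dat} {s : ℂ[X]} (hs : s.natDegree ≤ 1) (v w : Sp D) :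
    form s v w = s.coeff 1 * form X v w + s.coeff 0 * form 1 v w := by
  have hs' : s = C (s.coeff 1) * X + C (s.coeff 0) * 1 := by
    rw [mul_one]
    exact eq_X_add_C_of_natDegree_le_one hs
  conv_lhs => rw [hs', form_add_s, form_C_mul, form_C_mul]

variable {ι κ : Type} [Fintype ι] [Fintype κ] [DecidableEq ι] [DecidableEq κ]
  {k : ι → ℕ} {n : κ → ℕ} (μ : κ → ℂ) {V : Type*} [AddCommGroup V] [Module ℂ V]
  (b : Module.Basis (Idx k n) ℂ V)

/-- The space as model space. -/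
noncomputable def eqv : V ≃ₗ[ℂ] Sp (datOf k n μ) := b.equivFun.trans (toSp μ)

theorem eqv_basis (x : Idx k n) : eqv μ b (b x) = toSp μ (Pi.single x 1) := by
  show toSp μ (b.equivFun (b x)) = _
  congr 1
  ext y
  rw [b.equivFun_self, Pi.single_apply]
  congr 1
  exact propext eq_comm

omit [Fintype κ] [DecidableEq κ] in
theorem coeff_one_case (j : κ) (r r' : Fin (n j)) :
    (taylor (μ j) (1 : ℂ[X]) * X ^ (r : ℕ) * X ^ (n j - 1 - (r' : ℕ))).coeff (n j - 1) =
      (1 : Matrix (Fin (n j)) (Fin (n j)) ℂ) r r' := by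
  rw [taylor_one, C_1, one_mul, ← pow_add, coeff_X_pow, Matrix.one_apply]
  congr 1
  rw [Fin.ext_iff, eq_iff_iff]
  omega

omit [Fintype κ] [DecidableEq κ] in
theorem coeff_X_case (j : κ) (r r' : Fin (n j)) :
    (taylor (μ j) (X : ℂ[X]) * X ^ (r : ℕ) * X ^ (n j - 1 - (r' : ℕ))).coeff (n j - 1) =
      matJ (n j) (μ j) r r' := by
  rw [taylor_X, mul_assoc, ← pow_add, add_mul, ← pow_succ', coeff_add, coeff_C_mul, coeff_X_pow,
    coeff_X_pow, matJ, Matrix.of_apply]
  by_cases h : (r' : ℕ) = r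
  · rw [if_pos h, if_neg (by omega), if_pos (by omega), mul_one, zero_add]
  · rw [if_neg h, if_neg (show ¬ n j - 1 = (r : ℕ) + (n j - 1 - (r' : ℕ)) by omega), mul_zero,
      add_zero]
    congr 1
    rw [eq_iff_iff]
    omega

theorem form_eqv_one {A B : V →ₗ[ℂ] V →ₗ[ℂ] ℂ} (h : IsJK μ b A B) (v w : V) :
    form 1 (eqv μ b v) (eqv μ b w) = A v w := by
  have key : (form (D := datOf k n μ) 1).compl₁₂ (eqv μ b).toLinearMap (eqv μ b).toLinearMap =
      A := by
    refine b.ext fun x => b.ext fun y => ?_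
    rw [LinearMap.compl₁₂_apply, h.1 x y]
    show form 1 (eqv μ b (b x)) (eqv μ b (b y)) = _
    rw [eqv_basis, eqv_basis, form_single μ matD (fun j => 1) 1 ?_ ?_ x y]
    · simp [matP, matA]
    · intro i r r'
      rw [one_mul, coeff_X_pow]
      rfl
    · intro j r r'
      exact coeff_one_case μ j r r'
  rw [← key]
  rfl

theorem form_eqv_X {A B : V →ₗ[ℂ] V →ₗ[ℂ] ℂ} (h : IsJK μ b A B) (v w : V) :
    form X (eqv μ b v) (eqv μ b w) = B v w := by
  have key : (form (D := datOf k n μ) X).compl₁₂ (eqv μ b).toLinearMap (eqv μ b).toLinearMap =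
      B := by
    refine b.ext fun x => b.ext fun y => ?_
    rw [LinearMap.compl₁₂_apply, h.2 x y]
    show form X (eqv μ b (b x)) (eqv μ b (b y)) = _
    rw [eqv_basis, eqv_basis, form_single μ matD' (fun j => matJ (n j) (μ j)) X ?_ ?_ x y]
    · rfl
    · intro i r r'
      rw [← pow_succ', coeff_X_pow]
      rfl
    · intro j r r'
      exact coeff_X_case μ j r r'
  rw [← key]
  rfl

theorem isAut_iff' {A B : V →ₗ[ℂ] V →ₗ[ℂ] ℂ} {φ : V ≃ₗ[ℂ] V} : IsAut A B φ ↔
    (∀ v w, A (φ v) (φ w) = A v w) ∧ ∀ v w, B (φ v) (φ w) = B v w := by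
  constructor
  · rintro ⟨h1, h2⟩
    refine ⟨fun v w => ?_, h2⟩
    have := h1 0 v w
    simpa using this
  · rintro ⟨h1, h2⟩
    exact ⟨fun z v w => by rw [h1, h2], h2⟩

theorem isAut_comm {A B : V →ₗ[ℂ] V →ₗ[ℂ] ℂ} {φ : V ≃ₗ[ℂ] V} : IsAut A B φ ↔ IsAut B A φ := by
  rw [isAut_iff', isAut_iff', and_comm]

/-- Transport of a linear automorphism. -/
noncomputable def trans (φ : V ≃ₗ[ℂ] V) : Sp (datOf k n μ) ≃ₗ[ℂ] Sp (datOf k n μ) :=
  ((eqv μ b).symm.trans φ).trans (eqv μ b)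

theorem trans_apply (φ : V ≃ₗ[ℂ] V) (v : V) :
    trans μ b φ (eqv μ b v) = eqv μ b (φ v) := by
  show eqv μ b (φ ((eqv μ b).symm (eqv μ b v))) = _
  rw [(eqv μ b).symm_apply_apply]

theorem aut_trans_iff {A B : V →ₗ[ℂ] V →ₗ[ℂ] ℂ} (h : IsJK μ b A B) (φ : V ≃ₗ[ℂ] V) :
    Aut (trans μ b φ) ↔ IsAut A B φ := by
  rw [isAut_iff']
  constructor
  · intro hφ
    constructor
    · intro v w
      rw [← form_eqv_one μ b h, ← form_eqv_one μ b h, ← trans_apply, ← trans_apply]
      exact hφ 1 (by simp) _ _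
    · intro v w
      rw [← form_eqv_X μ b h, ← form_eqv_X μ b h, ← trans_apply, ← trans_apply]
      exact hφ X (by simp) _ _
  · rintro ⟨h1, h2⟩ s hs v w
    obtain ⟨v, rfl⟩ := (eqv μ b).surjective v
    obtain ⟨w, rfl⟩ := (eqv μ b).surjective w
    rw [trans_apply, trans_apply, form_lin hs, form_lin hs (eqv μ b v), form_eqv_one μ b h,
      form_eqv_one μ b h, form_eqv_X μ b h, form_eqv_X μ b h, h1, h2]

theorem exists_trans (ψ : Sp (datOf k n μ) ≃ₗ[ℂ] Sp (datOf k n μ)) :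
    ∃ φ : V ≃ₗ[ℂ] V, trans μ b φ = ψ := by
  refine ⟨((eqv μ b).trans ψ).trans (eqv μ b).symm, ?_⟩
  ext1 z
  obtain ⟨v, rfl⟩ := (eqv μ b).surjective z
  rw [trans_apply]
  show eqv μ b ((eqv μ b).symm (ψ (eqv μ b v))) = _
  rw [(eqv μ b).apply_symm_apply]

/-! ### Coordinates -/

theorem pol_eqv_fst (i : ι) (v : V) : pol ((eqv μ b v).1 i) = fP b i v := by
  rw [pol_apply, fP]
  refine Finset.sum_congr rfl fun r _ => ?_
  rw [← C_mul_X_pow_eq_monomial]
  rfl

theorem pr_eqv_snd (i : ι) (v : V) (g : ℂ[X]) : pr ((eqv μ b v).2.1 i) g = yP b i v g := rfl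

theorem pol_eqv_true (j : κ) (v : V) : pol ((eqv μ b v).2.2 (j, true)) = pP b j v := by
  rw [pol_apply, pP]
  refine Finset.sum_congr rfl fun r _ => ?_
  rw [← C_mul_X_pow_eq_monomial]
  rfl

theorem pol_eqv_false (j : κ) (v : V) : pol ((eqv μ b v).2.2 (j, false)) = qP b j v := by
  rw [pol_apply, qP]
  have h : ∀ r : Fin (n j), monomial (r : ℕ) ((eqv μ b v).2.2 (j, false) r) =
      C (b.repr v (Sum.inr ⟨j, Sum.inr (Fin.rev r)⟩)) * X ^ (n j - 1 - ((Fin.rev r : Fin _) : ℕ)) := by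
    intro r
    rw [← C_mul_X_pow_eq_monomial]
    have h1 : n j - 1 - ((Fin.rev r : Fin (n j)) : ℕ) = r := by
      rw [Fin.val_rev]
      omega
    rw [h1]
    rfl
  show ∑ r : Fin (n j), monomial (r : ℕ) ((eqv μ b v).2.2 (j, false) r) = _
  rw [Finset.sum_congr rfl fun r _ => h r]
  exact Equiv.sum_comp Fin.revPerm
    (fun r : Fin (n j) => C (b.repr v (Sum.inr ⟨j, Sum.inr r⟩)) * X ^ (n j - 1 - (r : ℕ)))

/-! ### Invariant subspaces -/

theorem lt_succ_iff {g : ℂ[X]} {d : ℕ} :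
    g.degree < ((d + 1 : ℕ) : WithBot ℕ) ↔ g.degree ≤ (d : WithBot ℕ) := by
  rw [degree_lt_iff_coeff_zero, degree_le_iff_coeff_zero]
  constructor
  · intro h m hm
    exact h m (by exact_mod_cast hm)
  · intro h m hm
    exact h m (by exact_mod_cast hm)

theorem adm_iff {F Z : ℕ → Submodule ℂ ℂ[X]} {a : ℂ → ℕ → ℕ} :
    Adm (datOf k n μ) F Z a ↔ Admissible k n μ F Z a := by
  constructor
  · intro h
    exact ⟨h.F_deg, fun i g hg => lt_succ_iff.1 (h.Z_deg i g hg), h.F_mul, h.Z_mul,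
      fun j => h.a_le (j, true), fun j j' => h.a_mono (j, true) (j', true),
      fun j j' => h.a_step (j, true) (j', true), h.F_Z, fun i j => h.F_dvd i (j, true),
      fun i j => h.Z_dvd i (j, true)⟩
  · intro h
    exact ⟨h.F_deg, fun i g hg => lt_succ_iff.2 (h.Z_deg i g hg), h.F_mul, h.Z_mul,
      fun c => h.a_le c.1, fun c c' => h.a_mono c.1 c'.1,
      fun c c' => h.a_step c.1 c'.1, h.F_Z, fun i c => h.F_dvd i c.1,
      fun i c => h.Z_dvd i c.1⟩

theorem mem_U_iff {F Z : ℕ → Submodule ℂ ℂ[X]} {a : ℂ → ℕ → ℕ} (v : V) :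
    eqv μ b v ∈ U (datOf k n μ) F Z a ↔ (∀ i, fP b i v ∈ F (k i)) ∧
      (∀ i, ∀ g ∈ Z (k i), yP b i v g = 0) ∧
      ∀ j, X ^ a (μ j) (n j) ∣ pP b j v ∧ X ^ a (μ j) (n j) ∣ qP b j v := by
  rw [mem_U]
  refine and_congr ?_ (and_congr Iff.rfl ?_)
  · exact forall_congr' fun i => by rw [← pol_eqv_fst μ]
  · constructor
    · intro h j
      rw [← pol_eqv_true μ, ← pol_eqv_false μ]
      exact ⟨h (j, true), h (j, false)⟩
    · rintro h ⟨j, _ | _⟩
      · rw [pol_eqv_false]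
        exact (h j).2
      · rw [pol_eqv_true]
        exact (h j).1

theorem describes_iff {F Z : ℕ → Submodule ℂ ℂ[X]} {a : ℂ → ℕ → ℕ} {W : Submodule ℂ V} :
    Describes b μ F Z a W ↔ W.map (eqv μ b).toLinearMap = U (datOf k n μ) F Z a := by
  constructor
  · intro h
    ext z
    obtain ⟨v, rfl⟩ := (eqv μ b).surjective z
    rw [mem_U_iff, ← h v]
    constructor
    · rintro ⟨w, hw, hwv⟩
      rwa [← (eqv μ b).injective hwv]
    · intro hv
      exact ⟨v, hv, rfl⟩
  · intro h v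
    rw [← mem_U_iff μ b, ← h]
    constructor
    · intro hv
      exact ⟨v, hv, rfl⟩
    · rintro ⟨w, hw, hwv⟩
      rwa [← (eqv μ b).injective hwv]

theorem invariant_iff_model {A B : V →ₗ[ℂ] V →ₗ[ℂ] ℂ} (h : IsJK μ b A B) (W : Submodule ℂ V) :
    (∀ φ : V ≃ₗ[ℂ] V, IsAut A B φ → W.map φ.toLinearMap = W) ↔
      ∀ ψ : Sp (datOf k n μ) ≃ₗ[ℂ] Sp (datOf k n μ), Aut ψ →
        ∀ z ∈ W.map (eqv μ b).toLinearMap, ψ z ∈ W.map (eqv μ b).toLinearMap := by
  constructor
  · rintro h1 ψ hψ _ ⟨v, hv, rfl⟩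
    obtain ⟨φ, rfl⟩ := exists_trans μ b ψ
    have h2 := h1 φ ((aut_trans_iff μ b h φ).1 hψ)
    refine ⟨φ v, ?_, (trans_apply μ b φ v).symm⟩
    rw [← h2]
    exact ⟨v, hv, rfl⟩
  · intro h1
    have key : ∀ φ : V ≃ₗ[ℂ] V, IsAut A B φ → ∀ v ∈ W, φ v ∈ W := by
      intro φ hφ v hv
      obtain ⟨w, hw, hwv⟩ := h1 _ ((aut_trans_iff μ b h φ).2 hφ) _ ⟨v, hv, rfl⟩
      have h3 : eqv μ b w = eqv μ b (φ v) := by
        rw [← trans_apply]
        exact hwv
      rwa [← (eqv μ b).injective h3]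
    intro φ hφ
    refine le_antisymm ?_ ?_
    · rintro _ ⟨v, hv, rfl⟩
      exact key φ hφ v hv
    · intro v hv
      have hφ' : IsAut A B φ.symm := by
        rw [isAut_iff'] at hφ ⊢
        constructor
        · intro v w
          rw [← hφ.1, φ.apply_symm_apply, φ.apply_symm_apply]
        · intro v w
          rw [← hφ.2, φ.apply_symm_apply, φ.apply_symm_apply]
      exact ⟨φ.symm v, key _ hφ' v hv, φ.apply_symm_apply v⟩

theorem invariant_iff_jk {A B : V →ₗ[ℂ] V →ₗ[ℂ] ℂ} (h : IsJK μ b A B) (W : Submodule ℂ V) :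
    (∀ φ : V ≃ₗ[ℂ] V, IsAut A B φ → W.map φ.toLinearMap = W) ↔
      ∃ F Z a, Admissible k n μ F Z a ∧ Describes b μ F Z a W := by
  rw [invariant_iff_model μ b h, invariant_iff]
  simp only [adm_iff, describes_iff]

theorem U_injective {D : Dat} {F Z F' Z' : ℕ → Submodule ℂ ℂ[X]} {a a' : ℂ → ℕ → ℕ}
    (h : Adm D F Z a) (h' : Adm D F' Z' a') (hU : U D F Z a = U D F' Z' a') :
    (∀ i, F (D.k i) ≤ F' (D.k i)) ∧ (∀ i, Z (D.k i) ≤ Z' (D.k i)) ∧
      ∀ c, a (D.μ c) (D.ν c) ≤ a' (D.μ c) (D.ν c) := by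
  refine ⟨fun i f hf => ?_, fun i g hg => ?_, fun c => ?_⟩
  · have h1 : ιF i (tr _ f) ∈ U D F Z a := by
      rw [ιF_mem_U, pol_tr (h.F_deg i f hf)]
      exact hf
    rwa [hU, ιF_mem_U, pol_tr (h.F_deg i f hf)] at h1
  · by_contra h0
    obtain ⟨l, h1, h2⟩ := Submodule.exists_dual_map_eq_bot_of_notMem h0 inferInstance
    have h3 : ιL i (res (D.k i + 1) l) ∈ U D F' Z' a' := by
      refine ⟨fun j => ?_, fun j g' hg' => ?_, fun c => ?_⟩
      · have : pol ((ιL i (res (D.k i + 1) l)).1 j) = 0 := by simp [ιL_apply]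
        rw [this]
        exact zero_mem _
      · by_cases hj : j = i
        · subst hj
          rw [ιL_same, pr_res _ (h'.Z_deg j g' hg')]
          have : l g' ∈ (Z' (D.k j)).map l := Submodule.mem_map_of_mem hg'
          rw [h2] at this
          exact (Submodule.mem_bot ℂ).1 this
        · rw [ιL_apply]
          show pr (Pi.single (M := fun i => E (D.k i + 1)) i _ j) g' = 0
          rw [Pi.single_eq_of_ne hj, map_zero, LinearMap.zero_apply]
      · simp [ιL_apply]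
    rw [← hU] at h3
    have h4 := h3.2.1 i g hg
    rw [ιL_same, pr_res _ (h.Z_deg i g hg)] at h4
    exact h1 h4
  · rcases Nat.lt_or_ge (a' (D.μ c) (D.ν c)) (D.ν c) with h1 | h1
    · have h2 : ιM c (tr _ (X ^ a' (D.μ c) (D.ν c))) ∈ U D F' Z' a' := by
        rw [ιM_mem_U]
        exact X_pow_dvd_pol_tr dvd_rfl
      rw [← hU, ιM_mem_U, pol_tr (by rw [degree_X_pow]; exact_mod_cast h1)] at h2
      exact (pow_dvd_pow_iff X_ne_zero not_isUnit_X).1 h2
    · exact (h.a_le c).trans h1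

theorem describes_unique {F Z F' Z' : ℕ → Submodule ℂ ℂ[X]} {a a' : ℂ → ℕ → ℕ}
    {W : Submodule ℂ V}
    (h : Admissible k n μ F Z a) (h' : Admissible k n μ F' Z' a') (hd : Describes b μ F Z a W)
    (hd' : Describes b μ F' Z' a' W) : (∀ i, F (k i) = F' (k i)) ∧ (∀ i, Z (k i) = Z' (k i)) ∧
      ∀ j, a (μ j) (n j) = a' (μ j) (n j) := by
  rw [← adm_iff] at h h'
  rw [describes_iff] at hd hd'
  rw [hd] at hd'
  obtain ⟨h1, h2, h3⟩ := U_injective h h' hd'
  obtain ⟨h4, h5, h6⟩ := U_injective h' h hd'.symm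
  exact ⟨fun i => le_antisymm (h1 i) (h4 i), fun i => le_antisymm (h2 i) (h5 i),
    fun j => le_antisymm (h3 (j, true)) (h6 (j, true))⟩

/-! ### Orbits -/

theorem Fd_eqv (v : V) (d : ℕ) : Fd (eqv μ b v) d = multiples b v d := by
  rw [Fd, multiples]
  congr 1
  ext x
  constructor
  · rintro ⟨i, g, h1, h2, h3⟩
    exact ⟨i, g, h1, h2, by rw [h3, pol_eqv_fst]⟩
  · rintro ⟨i, g, h1, h2, h3⟩
    exact ⟨i, g, h1, h2, by rw [h3, pol_eqv_fst]⟩

theorem mem_Zd_eqv (v : V) (d : ℕ) (g : ℂ[X]) :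
    g ∈ Zd (eqv μ b v) d ↔ g ∈ annihilators b μ v d := by
  rw [mem_Zd]
  refine and_congr lt_succ_iff (and_congr ?_ (and_congr Iff.rfl ?_))
  · refine imp_congr_left ?_
    rw [Function.ne_iff]
    refine exists_congr fun i => ?_
    rw [← pol_eqv_fst μ]
    exact not_congr ⟨fun h => by rw [h]; simp, fun h => pol_eq_zero h⟩
  · constructor
    · intro h j
      rw [← pol_eqv_true μ, ← pol_eqv_false μ]
      exact ⟨h (j, true), h (j, false)⟩
    · rintro h ⟨j, _ | _⟩
      · rw [pol_eqv_false]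
        exact (h j).2
      · rw [pol_eqv_true]
        exact (h j).1

theorem ht_eqv (v : V) (m : ℂ) (d : ℕ) : ht (eqv μ b v) m d = height b μ v m d := by
  have key : ∀ e, (e ≤ d ∧ Good (eqv μ b v) m d e) ↔ (e ≤ d ∧ (∀ i, (X - C m) ^ e ∣ fP b i v) ∧
      ∀ j, μ j = m → X ^ e ∣ X ^ (d - n j) * pP b j v ∧ X ^ e ∣ X ^ (d - n j) * qP b j v) := by
    intro e
    refine and_congr Iff.rfl (and_congr ?_ ?_)
    · exact forall_congr' fun i => by rw [← pol_eqv_fst μ]
    · constructor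
      · intro h j hj
        rw [← pol_eqv_true μ, ← pol_eqv_false μ]
        exact ⟨h (j, true) hj, h (j, false) hj⟩
      · rintro h ⟨j, _ | _⟩ hj
        · rw [pol_eqv_false]
          exact (h j hj).2
        · rw [pol_eqv_true]
          exact (h j hj).1
  have hset : {e | e ≤ d ∧ (∀ i, (X - C m) ^ e ∣ fP b i v) ∧
      ∀ j, μ j = m → X ^ e ∣ X ^ (d - n j) * pP b j v ∧ X ^ e ∣ X ^ (d - n j) * qP b j v} =
      {e | e ≤ d ∧ Good (eqv μ b v) m d e} := by
    ext e
    exact (key e).symm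
  rw [height, hset]
  refine le_antisymm (le_csSup ⟨d, fun e he => he.1⟩ ⟨ht_le _ _ _, good_ht _ _ _⟩) ?_
  exact csSup_le ⟨0, Nat.zero_le _, good_zero _ _ _⟩ fun e he => le_ht he.2 he.1

theorem orbit_iff_model {A B : V →ₗ[ℂ] V →ₗ[ℂ] ℂ} (h : IsJK μ b A B) (v w : V) :
    (∃ φ : V ≃ₗ[ℂ] V, IsAut A B φ ∧ φ v = w) ↔ ∃ ψ, Aut ψ ∧ ψ (eqv μ b v) = eqv μ b w := by
  constructor
  · rintro ⟨φ, hφ, rfl⟩
    exact ⟨_, (aut_trans_iff μ b h φ).2 hφ, trans_apply μ b φ v⟩
  · rintro ⟨ψ, hψ, h1⟩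
    obtain ⟨φ, rfl⟩ := exists_trans μ b ψ
    refine ⟨φ, (aut_trans_iff μ b h φ).1 hψ, (eqv μ b).injective ?_⟩
    rw [← trans_apply, h1]

theorem orbit_iff_jk {A B : V →ₗ[ℂ] V →ₗ[ℂ] ℂ} (h : IsJK μ b A B) (v w : V) :
    (∃ φ : V ≃ₗ[ℂ] V, IsAut A B φ ∧ φ v = w) ↔
      (∀ i, multiples b v (k i) = multiples b w (k i)) ∧
      (∀ i, annihilators b μ v (k i) = annihilators b μ w (k i)) ∧
      ∀ j, height b μ v (μ j) (n j) = height b μ w (μ j) (n j) := by
  rw [orbit_iff_model μ b h, orbit_iff]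
  refine and_congr ?_ (and_congr ?_ ?_)
  · refine forall_congr' fun i => ?_
    rw [Fd_eqv, Fd_eqv]
  · refine forall_congr' fun i => ?_
    rw [Set.ext_iff, Submodule.ext_iff]
    exact forall_congr' fun g => by rw [← mem_Zd_eqv, ← mem_Zd_eqv]
  · constructor
    · intro h j
      rw [← ht_eqv, ← ht_eqv]
      exact h (j, true)
    · rintro h ⟨j, x⟩
      have := h j
      rw [← ht_eqv, ← ht_eqv] at this
      exact this

/-- Vectors lie in the same orbit if and only if they lie in the same invariant subspaces. -/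
theorem orbit_iff_invariant {A B : V →ₗ[ℂ] V →ₗ[ℂ] ℂ} (h : IsJK μ b A B) (v w : V) :
    (∃ φ : V ≃ₗ[ℂ] V, IsAut A B φ ∧ φ v = w) ↔ ∀ W : Submodule ℂ V,
      (∀ φ : V ≃ₗ[ℂ] V, IsAut A B φ → W.map φ.toLinearMap = W) → (v ∈ W ↔ w ∈ W) := by
  constructor
  · rintro ⟨φ, hφ, rfl⟩ W hW
    constructor
    · intro hv
      rw [← hW φ hφ]
      exact ⟨v, hv, rfl⟩
    · intro hv
      rw [← hW φ hφ] at hv
      obtain ⟨u, hu, huv⟩ := hv
      rwa [← φ.injective huv]
  · intro h1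
    rw [orbit_iff_model μ b h, orbit_iff_S]
    have key : ∀ u x : V, (∀ W : Submodule ℂ V,
        (∀ φ : V ≃ₗ[ℂ] V, IsAut A B φ → W.map φ.toLinearMap = W) → (u ∈ W ↔ x ∈ W)) →
        S (eqv μ b x) ≤ S (eqv μ b u) := by
      intro u x hux
      refine S_le_of_mem ?_
      have h2 := hux ((S (eqv μ b u)).map (eqv μ b).symm.toLinearMap) (by
        rw [invariant_iff_model μ b h]
        have h3 : ((S (eqv μ b u)).map (eqv μ b).symm.toLinearMap).map (eqv μ b).toLinearMap =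
            S (eqv μ b u) := by
          rw [← Submodule.map_comp]
          have : (eqv μ b).toLinearMap ∘ₗ (eqv μ b).symm.toLinearMap = LinearMap.id := by
            exact LinearMap.ext fun z => (eqv μ b).apply_symm_apply z
          rw [this, Submodule.map_id]
        rw [h3]
        exact S_invariant _)
      obtain ⟨z, hz, hzx⟩ := h2.1 ⟨eqv μ b u, self_mem_S _, (eqv μ b).symm_apply_apply u⟩
      have h4 : z = eqv μ b x := by
        rw [← hzx]
        exact ((eqv μ b).apply_symm_apply z).symm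
      rwa [← h4]
    exact le_antisymm (key w v fun W hW => (h1 W hW).symm) (key v w h1)

end Pool.Agent.Lib.MP_8c499d_al
end
end
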